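import Pool.Agent.Lib.MP_588841_co.Defs

/-! Symmetric ternary systems with prescribed codegrees. -/

set_option autoImplicit false

namespace Pool.Agent.Lib.MP_588841_co

open Finset

/-- indicator function of a set of 3-subsets of `V` -/
structure Sys {V : Type} (t : V → V → V → ℕ) : Prop where
  le_one : ∀ x y z, t x y z ≤ 1
  swap12 : ∀ x y z, t x y z = t y x z
  swap23 : ∀ x y z, t x y z = t x z y
  diag : ∀ x y, t x x y = 0

def Window (lam c : ℕ) : Prop := ∃ m, m ≤ 2 ∧ c + 2 * m = lam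

/-- there is a 3-graph on `V` all of whose codegrees lie in `{lam, lam-2, lam-4}` -/
def Good (V : Type) [Fintype V] (lam : ℕ) : Prop :=
  ∃ t : V → V → V → ℕ, Sys t ∧ ∀ x y, x ≠ y → Window lam (∑ z, t x y z)

lemma Sys.diag13 {V : Type} {t : V → V → V → ℕ} (h : Sys t) (x y : V) : t x y x = 0 := by
  rw [h.swap23, h.diag]

lemma Sys.diag23 {V : Type} {t : V → V → V → ℕ} (h : Sys t) (x y : V) : t x y y = 0 := by
  rw [h.swap12, h.swap23, h.diag]

lemma good_congr {V W : Type} [Fintype V] [Fintype W] (e : V ≃ W) (lam : ℕ)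
    (h : Good V lam) : Good W lam := by
  obtain ⟨t, ht, hw⟩ := h
  refine ⟨fun x y z => t (e.symm x) (e.symm y) (e.symm z), ⟨?_, ?_, ?_, ?_⟩, ?_⟩
  · intro x y z; exact ht.le_one _ _ _
  · intro x y z; exact ht.swap12 _ _ _
  · intro x y z; exact ht.swap23 _ _ _
  · intro x y; exact ht.diag _ _
  · intro x y hxy
    have := hw (e.symm x) (e.symm y) (fun h => hxy (e.symm.injective h))
    have h2 : ∑ z, t (e.symm x) (e.symm y) (e.symm z) = ∑ z, t (e.symm x) (e.symm y) z :=
      Equiv.sum_comp e.symm (fun z => t (e.symm x) (e.symm y) z)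
    rw [h2]; exact this

lemma good_of_card {V W : Type} [Fintype V] [Fintype W] (hc : Fintype.card V = Fintype.card W)
    (lam : ℕ) (h : Good V lam) : Good W lam :=
  good_congr (Fintype.equivOfCardEq hc) lam h

lemma good_zero (V : Type) [Fintype V] (lam : ℕ) (h : lam = 0 ∨ lam = 2 ∨ lam = 4) :
    Good V lam := by
  refine ⟨fun _ _ _ => 0, ⟨?_, ?_, ?_, ?_⟩, ?_⟩
  · intros; norm_num
  · intros; rfl
  · intros; rfl
  · intros; rfl
  · intro x y _
    rw [sum_const_zero]
    rcases h with h | h | h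
    · exact ⟨0, by norm_num, by omega⟩
    · exact ⟨1, by norm_num, by omega⟩
    · exact ⟨2, by norm_num, by omega⟩

lemma sum_distinct {V : Type} [Fintype V] [DecidableEq V] (x y : V) (hxy : x ≠ y) :
    (∑ z, if x ≠ y ∧ y ≠ z ∧ x ≠ z then 1 else 0) + 2 = Fintype.card V := by
  rw [← Finset.card_univ, ← Finset.card_filter]
  have h1 : (univ : Finset V) = insert x (insert y (univ.filter fun z => x ≠ y ∧ y ≠ z ∧ x ≠ z)) := by
    ext z
    simp only [mem_univ, mem_insert, mem_filter, true_and, true_iff]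
    by_cases h2 : z = x
    · left; exact h2
    · by_cases h3 : z = y
      · right; left; exact h3
      · right; right; exact ⟨hxy, fun h => h3 h.symm, fun h => h2 h.symm⟩
  conv_rhs => rw [h1]
  rw [card_insert_of_notMem, card_insert_of_notMem]
  · simp
  · simp [hxy]

lemma good_compl {V : Type} [Fintype V] (lam : ℕ) (hle : lam ≤ Fintype.card V + 2)
    (h : Good V lam) : Good V (Fintype.card V + 2 - lam) := by
  classical
  obtain ⟨t, ht, hw⟩ := h
  refine ⟨fun x y z => if x ≠ y ∧ y ≠ z ∧ x ≠ z then 1 - t x y z else 0, ⟨?_, ?_, ?_, ?_⟩, ?_⟩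
  · intro x y z
    split_ifs <;> omega
  · intro x y z
    rw [ht.swap12 y x z]
    have : (x ≠ y ∧ y ≠ z ∧ x ≠ z) ↔ (y ≠ x ∧ x ≠ z ∧ y ≠ z) := by
      constructor
      · rintro ⟨a, b, c⟩; exact ⟨a.symm, c, b⟩
      · rintro ⟨a, b, c⟩; exact ⟨a.symm, c, b⟩
    simp only [this]
  · intro x y z
    rw [ht.swap23 x z y]
    have : (x ≠ y ∧ y ≠ z ∧ x ≠ z) ↔ (x ≠ z ∧ z ≠ y ∧ x ≠ y) := by
      constructor
      · rintro ⟨a, b, c⟩; exact ⟨c, b.symm, a⟩
      · rintro ⟨a, b, c⟩; exact ⟨c, b.symm, a⟩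
    simp only [this]
  · intro x y; simp
  · intro x y hxy
    obtain ⟨m, hm, hs⟩ := hw x y hxy
    refine ⟨2 - m, by omega, ?_⟩
    have e1 : (∑ z, if x ≠ y ∧ y ≠ z ∧ x ≠ z then 1 - t x y z else 0) + ∑ z, t x y z
        = ∑ z, if x ≠ y ∧ y ≠ z ∧ x ≠ z then 1 else 0 := by
      rw [← sum_add_distrib]
      apply sum_congr rfl
      intro z _
      have h1 := ht.le_one x y z
      split_ifs with h2
      · omega
      · by_cases h3 : y = z
        · subst h3; rw [ht.diag23]
        · by_cases h4 : x = z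
          · subst h4; rw [ht.diag13]
          · exact absurd ⟨hxy, h3, h4⟩ h2
    have e2 := sum_distinct x y hxy
    change (∑ z, if x ≠ y ∧ y ≠ z ∧ x ≠ z then 1 - t x y z else 0) + 2 * (2 - m)
      = Fintype.card V + 2 - lam
    omega

/-- gluing a ternary system on `X ⊕ Y` from four pieces -/
def glue {X Y : Type} (a : X → X → X → ℕ) (b : X → X → Y → ℕ) (c : X → Y → Y → ℕ)
    (d : Y → Y → Y → ℕ) : (X ⊕ Y) → (X ⊕ Y) → (X ⊕ Y) → ℕ
  | Sum.inl x, Sum.inl y, Sum.inl z => a x y z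
  | Sum.inl x, Sum.inl y, Sum.inr z => b x y z
  | Sum.inl x, Sum.inr y, Sum.inl z => b x z y
  | Sum.inr x, Sum.inl y, Sum.inl z => b y z x
  | Sum.inl x, Sum.inr y, Sum.inr z => c x y z
  | Sum.inr x, Sum.inl y, Sum.inr z => c y x z
  | Sum.inr x, Sum.inr y, Sum.inl z => c z x y
  | Sum.inr x, Sum.inr y, Sum.inr z => d x y z

lemma good_glue {X Y : Type} [Fintype X] [Fintype Y] (lam : ℕ)
    (a : X → X → X → ℕ) (b : X → X → Y → ℕ) (c : X → Y → Y → ℕ) (d : Y → Y → Y → ℕ)
    (ha : Sys a) (hd : Sys d)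
    (hb1 : ∀ x x' y, b x x' y ≤ 1) (hb2 : ∀ x x' y, b x x' y = b x' x y) (hb3 : ∀ x y, b x x y = 0)
    (hc1 : ∀ x y y', c x y y' ≤ 1) (hc2 : ∀ x y y', c x y y' = c x y' y) (hc3 : ∀ x y, c x y y = 0)
    (hXX : ∀ x x', x ≠ x' → Window lam (∑ z, a x x' z + ∑ z, b x x' z))
    (hXY : ∀ x y, Window lam (∑ z, b x z y + ∑ z, c x y z))
    (hYY : ∀ y y', y ≠ y' → Window lam (∑ z, c z y y' + ∑ z, d y y' z)) :
    Good (X ⊕ Y) lam := by
  refine ⟨glue a b c d, ⟨?_, ?_, ?_, ?_⟩, ?_⟩
  · rintro (x | x) (y | y) (z | z) <;> simp only [glue] <;>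
      first | exact ha.le_one _ _ _ | exact hb1 _ _ _ | exact hc1 _ _ _ | exact hd.le_one _ _ _
  · rintro (x | x) (y | y) (z | z) <;> simp only [glue] <;>
      first | exact ha.swap12 _ _ _ | exact hb2 _ _ _ | exact hc2 _ _ _ | exact hd.swap12 _ _ _
  · rintro (x | x) (y | y) (z | z) <;> simp only [glue] <;>
      first | exact ha.swap23 _ _ _ | exact hb2 _ _ _ | exact hc2 _ _ _ | exact hd.swap23 _ _ _
  · rintro (x | x) (y | y) <;> simp only [glue] <;>
      first | exact ha.diag _ _ | exact hb3 _ _ | exact hc3 _ _ | exact hd.diag _ _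
  · rintro (x | x) (y | y) hxy
    · rw [Fintype.sum_sum_type]
      simp only [glue]
      exact hXX x y (fun h => hxy (by rw [h]))
    · rw [Fintype.sum_sum_type]
      simp only [glue]
      exact hXY x y
    · rw [Fintype.sum_sum_type]
      simp only [glue]
      exact hXY y x
    · rw [Fintype.sum_sum_type]
      simp only [glue]
      exact hYY x y (fun h => hxy (by rw [h]))

end Pool.Agent.Lib.MP_588841_co
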