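import Mathlib

/-!
Variance-balanced designs with block size 3, following the wording of the problem file.
The point set `{1, …, v}` is `Fin v`, a block is a multiset of points, and a design is the list
of its blocks.
-/

set_option autoImplicit false

namespace Pool.Agent.Lib.MP_588841_co

/-- A block with block size 3: a multiset of three points which are not all equal. -/
def IsBlock {v : ℕ} (B : Multiset (Fin v)) : Prop :=
  Multiset.card B = 3 ∧ ∀ a : Fin v, B ≠ {a, a, a}

/-- The replication number `r_i = ∑_B n_{iB}`. -/
def replication {v : ℕ} (D : List (Multiset (Fin v))) (i : Fin v) : ℕ :=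
  (D.map fun B => B.count i).sum

/-- `∑_B n_{iB} n_{jB}`, the entry `(i, j)` of `N Nᵀ`; for `i ≠ j` it is the concurrence
`λ_{ij}`. -/
def concurrence {v : ℕ} (D : List (Multiset (Fin v))) (i j : Fin v) : ℕ :=
  (D.map fun B => B.count i * B.count j).sum

/-- The information matrix `C = diag(r_1, …, r_v) - (1/3) N Nᵀ`. -/
def infoMatrix {v : ℕ} (D : List (Multiset (Fin v))) : Matrix (Fin v) (Fin v) ℚ :=
  Matrix.diagonal (fun i => (replication D i : ℚ)) -
    (1 / 3 : ℚ) • Matrix.of fun i j => (concurrence D i j : ℚ)

/-- The list `D` of blocks is a `VB(v, 3, lam)` design: its information matrix is completely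
symmetric and all concurrences of distinct points are equal to `lam`. -/
structure IsVB (v lam : ℕ) (D : List (Multiset (Fin v))) : Prop where
  blocks : ∀ B ∈ D, IsBlock B
  symmetric : ∃ a b : ℚ, infoMatrix D =
    a • (1 : Matrix (Fin v) (Fin v) ℚ) + b • Matrix.of fun _ _ => (1 : ℚ)
  balanced : ∀ i j : Fin v, i ≠ j → concurrence D i j = lam

end Pool.Agent.Lib.MP_588841_co
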