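import Pool.Agent.Lib.MP_588841_co.Exist

/-! From ternary systems to designs and back. -/

set_option autoImplicit false

namespace Pool.Agent.Lib.MP_588841_co

open Finset

variable {v : ℕ}

/-- multiset equality of two triples -/
lemma triple_perm {V : Type} [DecidableEq V] {x y z a b c : V}
    (h : ({x, y, z} : Multiset V) = {a, b, c}) :
    (x = a ∧ y = b ∧ z = c) ∨ (x = a ∧ y = c ∧ z = b) ∨ (x = b ∧ y = a ∧ z = c) ∨
    (x = b ∧ y = c ∧ z = a) ∨ (x = c ∧ y = a ∧ z = b) ∨ (x = c ∧ y = b ∧ z = a) := by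
  have hx : x ∈ ({a, b, c} : Multiset V) := by rw [← h]; simp
  have key : ∀ {y z a b : V}, ({y, z} : Multiset V) = {a, b} → (y = a ∧ z = b) ∨ (y = b ∧ z = a) := by
    intro y z a b h
    have hy : y ∈ ({a, b} : Multiset V) := by rw [← h]; simp
    rw [Multiset.insert_eq_cons, Multiset.mem_cons, Multiset.mem_singleton] at hy
    rcases hy with rfl | rfl
    · rw [Multiset.insert_eq_cons, Multiset.insert_eq_cons, Multiset.cons_inj_right,
        Multiset.singleton_inj] at h
      exact Or.inl ⟨rfl, h⟩
    · rw [Multiset.pair_comm a y] at h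
      rw [Multiset.insert_eq_cons, Multiset.insert_eq_cons, Multiset.cons_inj_right,
        Multiset.singleton_inj] at h
      exact Or.inr ⟨rfl, h⟩
  rw [Multiset.insert_eq_cons, Multiset.mem_cons, Multiset.insert_eq_cons, Multiset.mem_cons,
    Multiset.mem_singleton] at hx
  rcases hx with rfl | rfl | rfl
  · rw [Multiset.insert_eq_cons x, Multiset.insert_eq_cons x, Multiset.cons_inj_right] at h
    rcases key h with ⟨rfl, rfl⟩ | ⟨rfl, rfl⟩ <;> simp
  · have e : ({a, x, c} : Multiset V) = {x, a, c} := by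
      simp only [Multiset.insert_eq_cons]; rw [Multiset.cons_swap]
    rw [e, Multiset.insert_eq_cons x, Multiset.insert_eq_cons x, Multiset.cons_inj_right] at h
    rcases key h with ⟨rfl, rfl⟩ | ⟨rfl, rfl⟩ <;> simp
  · have e : ({a, b, x} : Multiset V) = {x, a, b} := by
      simp only [Multiset.insert_eq_cons]
      rw [← Multiset.singleton_add, ← Multiset.singleton_add, ← Multiset.singleton_add x,
        ← Multiset.singleton_add a]
      abel
    rw [e, Multiset.insert_eq_cons x, Multiset.insert_eq_cons x, Multiset.cons_inj_right] at h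
    rcases key h with ⟨rfl, rfl⟩ | ⟨rfl, rfl⟩ <;> simp

lemma card_three {V : Type} (x y z : V) : Multiset.card ({x, y, z} : Multiset V) = 3 := by
  simp

/-- the concurrence of a design without repeated blocks -/
lemma concurrence_eq (D : List (Multiset (Fin v))) (hnd : D.Nodup)
    (hcard : ∀ B ∈ D, Multiset.card B = 3) (i j : Fin v) (hij : i ≠ j) :
    concurrence D i j = ∑ z, (if ({i, j, z} : Multiset (Fin v)) ∈ D then
      1 + (if z = i then 1 else 0) + (if z = j then 1 else 0) else 0) := by
  classical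
  unfold concurrence
  rw [← List.sum_toFinset _ hnd]
  have h1 : ∑ B ∈ D.toFinset, B.count i * B.count j
      = ∑ B ∈ D.toFinset.filter (fun B => i ∈ B ∧ j ∈ B), B.count i * B.count j := by
    rw [sum_filter]
    apply sum_congr rfl
    intro B _
    split_ifs with h
    · rfl
    · by_cases hi : i ∈ B
      · have hj : j ∉ B := fun hj => h ⟨hi, hj⟩
        rw [Multiset.count_eq_zero_of_notMem hj, mul_zero]
      · rw [Multiset.count_eq_zero_of_notMem hi, zero_mul]
  have h2 : D.toFinset.filter (fun B => i ∈ B ∧ j ∈ B)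
      = (univ.filter (fun z : Fin v => ({i, j, z} : Multiset (Fin v)) ∈ D)).image
        (fun z => ({i, j, z} : Multiset (Fin v))) := by
    ext B
    simp only [mem_filter, List.mem_toFinset, mem_image, mem_univ, true_and]
    constructor
    · rintro ⟨hB, hi, hj⟩
      obtain ⟨B', rfl⟩ := Multiset.exists_cons_of_mem hi
      have hj' : j ∈ B' := by
        rcases Multiset.mem_cons.mp hj with h | h
        · exact absurd h.symm hij
        · exact h
      obtain ⟨B'', rfl⟩ := Multiset.exists_cons_of_mem hj'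
      have hc := hcard _ hB
      rw [Multiset.card_cons, Multiset.card_cons] at hc
      have hc1 : Multiset.card B'' = 1 := by omega
      obtain ⟨z, rfl⟩ := Multiset.card_eq_one.mp hc1
      exact ⟨z, hB, rfl⟩
    · rintro ⟨z, hz, rfl⟩
      exact ⟨hz, by simp, by simp⟩
  rw [h1, h2, sum_image, sum_filter]
  · apply sum_congr rfl
    intro z _
    split_ifs with h h3 h4 h4
    · exact absurd (h3.symm.trans h4) hij
    · subst h3
      simp only [Multiset.insert_eq_cons]
      rw [Multiset.count_cons, Multiset.count_cons, Multiset.count_singleton, Multiset.count_cons,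
        Multiset.count_cons, Multiset.count_singleton]
      simp [hij, hij.symm]
    · subst h4
      simp only [Multiset.insert_eq_cons]
      rw [Multiset.count_cons, Multiset.count_cons, Multiset.count_singleton, Multiset.count_cons,
        Multiset.count_cons, Multiset.count_singleton]
      simp [hij, hij.symm]
    · simp only [Multiset.insert_eq_cons]
      have h3' : ¬ i = z := fun e => h3 e.symm
      have h4' : ¬ j = z := fun e => h4 e.symm
      rw [Multiset.count_cons, Multiset.count_cons, Multiset.count_singleton, Multiset.count_cons,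
        Multiset.count_cons, Multiset.count_singleton]
      simp [hij, hij.symm, h3', h4']
    · rfl
  · intro a _ b _ hab
    simp only [Multiset.insert_eq_cons, Multiset.cons_inj_right, Multiset.singleton_inj] at hab
    exact hab

lemma sum_split (F : Fin v → ℕ) (i j : Fin v) (hij : i ≠ j) :
    ∑ z, F z = (∑ z, if i ≠ j ∧ j ≠ z ∧ i ≠ z then F z else 0) + F i + F j := by
  classical
  have h1 : ∀ z, F z = (if i ≠ j ∧ j ≠ z ∧ i ≠ z then F z else 0) + (if z = i then F i else 0)
      + (if z = j then F j else 0) := by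
    intro z
    by_cases h1 : z = i
    · subst h1
      simp [hij]
    · by_cases h2 : z = j
      · subst h2
        simp [h1]
      · have h3 : i ≠ j ∧ j ≠ z ∧ i ≠ z := ⟨hij, fun e => h2 e.symm, fun e => h1 e.symm⟩
        rw [if_pos h3, if_neg h1, if_neg h2]
        ring
  rw [Finset.sum_congr rfl (fun z _ => h1 z), sum_add_distrib, sum_add_distrib]
  simp

theorem good_of_design (lam : ℕ) (D : List (Multiset (Fin v))) (hD : IsVB v lam D)
    (hnd : D.Nodup) : Good (Fin v) lam := by
  classical
  refine ⟨fun x y z => if (x ≠ y ∧ y ≠ z ∧ x ≠ z) ∧ ({x, y, z} : Multiset (Fin v)) ∈ D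
    then 1 else 0, ⟨?_, ?_, ?_, ?_⟩, ?_⟩
  · intro x y z; split_ifs <;> norm_num
  · intro x y z
    have e : ({x, y, z} : Multiset (Fin v)) = {y, x, z} := by
      simp only [Multiset.insert_eq_cons]; rw [Multiset.cons_swap]
    rw [e]
    have : (x ≠ y ∧ y ≠ z ∧ x ≠ z) ↔ (y ≠ x ∧ x ≠ z ∧ y ≠ z) := by
      constructor
      · rintro ⟨a, b, c⟩; exact ⟨a.symm, c, b⟩
      · rintro ⟨a, b, c⟩; exact ⟨a.symm, c, b⟩
    simp only [this]
  · intro x y z
    have e : ({x, y, z} : Multiset (Fin v)) = {x, z, y} := by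
      rw [Multiset.pair_comm]
    rw [e]
    have : (x ≠ y ∧ y ≠ z ∧ x ≠ z) ↔ (x ≠ z ∧ z ≠ y ∧ x ≠ y) := by
      constructor
      · rintro ⟨a, b, c⟩; exact ⟨c, b.symm, a⟩
      · rintro ⟨a, b, c⟩; exact ⟨c, b.symm, a⟩
    simp only [this]
  · intro x y; simp
  · intro i j hij
    have hc := concurrence_eq D hnd (fun B hB => (hD.blocks B hB).1) i j hij
    rw [hD.balanced i j hij, sum_split _ i j hij] at hc
    have e1 : (∑ z, if i ≠ j ∧ j ≠ z ∧ i ≠ z then (if ({i, j, z} : Multiset (Fin v)) ∈ D then
      1 + (if z = i then 1 else 0) + (if z = j then 1 else 0) else 0) else 0)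
      = ∑ z, if (i ≠ j ∧ j ≠ z ∧ i ≠ z) ∧ ({i, j, z} : Multiset (Fin v)) ∈ D then 1 else 0 := by
      apply sum_congr rfl
      intro z _
      by_cases h1 : i ≠ j ∧ j ≠ z ∧ i ≠ z
      · have h2 : ¬ z = i := fun e => h1.2.2 e.symm
        have h3 : ¬ z = j := fun e => h1.2.1 e.symm
        simp only [if_pos h1, if_neg h2, if_neg h3, add_zero]
        by_cases h4 : ({i, j, z} : Multiset (Fin v)) ∈ D
        · rw [if_pos h4, if_pos ⟨h1, h4⟩]
        · rw [if_neg h4, if_neg (fun h => h4 h.2)]
      · rw [if_neg h1, if_neg (fun h => h1 h.1)]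
    rw [e1] at hc
    simp only [if_true, if_neg hij, if_neg hij.symm, add_zero] at hc
    refine ⟨(if ({i, j, i} : Multiset (Fin v)) ∈ D then 1 else 0)
      + (if ({i, j, j} : Multiset (Fin v)) ∈ D then 1 else 0), by split_ifs <;> norm_num, ?_⟩
    rw [hc]
    split_ifs <;> ring

lemma sum_concurrence (D : List (Multiset (Fin v))) (hcard : ∀ B ∈ D, Multiset.card B = 3)
    (i : Fin v) : ∑ j, concurrence D i j = 3 * replication D i := by
  induction D with
  | nil => simp [concurrence, replication]
  | cons B D ih =>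
    have h1 : ∑ j, B.count j = 3 := by
      rw [Multiset.sum_count_eq_card (fun a _ => mem_univ a)]
      exact hcard B (by simp)
    have h2 := ih (fun B' hB' => hcard B' (by simp [hB']))
    unfold concurrence replication at *
    simp only [List.map_cons, List.sum_cons]
    rw [sum_add_distrib, h2, ← mul_sum, h1]
    ring

/-- constant concurrences make the information matrix completely symmetric -/
lemma info_of_balanced (D : List (Multiset (Fin v))) (hcard : ∀ B ∈ D, Multiset.card B = 3)
    (lam : ℕ) (hb : ∀ i j : Fin v, i ≠ j → concurrence D i j = lam) :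
    infoMatrix D = ((v : ℚ) * lam / 3) • (1 : Matrix (Fin v) (Fin v) ℚ)
      + (-(lam : ℚ) / 3) • Matrix.of fun _ _ => (1 : ℚ) := by
  ext i j
  simp only [infoMatrix, Matrix.sub_apply, Matrix.add_apply, Matrix.smul_apply, Matrix.of_apply,
    smul_eq_mul, mul_one]
  by_cases hij : i = j
  · subst hij
    rw [Matrix.diagonal_apply_eq, Matrix.one_apply_eq]
    have h1 := sum_concurrence D hcard i
    rw [← add_sum_erase univ (fun j => concurrence D i j) (mem_univ i),
      Finset.sum_congr rfl (fun j hj => hb i j (ne_of_mem_erase hj).symm), sum_const,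
      card_erase_of_mem (mem_univ i), card_univ, Fintype.card_fin, smul_eq_mul] at h1
    have hv : 1 ≤ v := Nat.succ_le_of_lt (lt_of_le_of_lt (Nat.zero_le _) i.2)
    have h2 : ((concurrence D i i : ℕ) : ℚ) + ((v : ℚ) - 1) * lam = 3 * (replication D i : ℚ) := by
      have := congrArg (Nat.cast : ℕ → ℚ) h1
      push_cast [Nat.cast_sub hv] at this
      exact this
    linarith
  · rw [Matrix.diagonal_apply_ne _ hij, Matrix.one_apply_ne hij, hb i j hij]
    ring

theorem design_of_good (lam : ℕ) (h : Good (Fin v) lam) :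
    ∃ D : List (Multiset (Fin v)), IsVB v lam D ∧ D.Nodup := by
  classical
  obtain ⟨t, ht, hw⟩ := h
  choose! m hm hs using hw
  have hmsymm : ∀ x y, x ≠ y → m x y = m y x := by
    intro x y hxy
    have h1 := hs x y hxy
    have h2 := hs y x hxy.symm
    have h3 : ∑ z, t x y z = ∑ z, t y x z := sum_congr rfl (fun z _ => ht.swap12 x y z)
    omega
  set M : Fin v → Fin v → Prop := fun x y => x ≠ y ∧ (m x y = 2 ∨ (m x y = 1 ∧ x < y)) with hM
  set D : Finset (Multiset (Fin v)) :=
    (univ.filter (fun p : Fin v × Fin v × Fin v => t p.1 p.2.1 p.2.2 = 1)).image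
      (fun p => ({p.1, p.2.1, p.2.2} : Multiset (Fin v)))
    ∪ (univ.filter (fun p : Fin v × Fin v => M p.1 p.2)).image
      (fun p => ({p.1, p.1, p.2} : Multiset (Fin v))) with hDdef
  have memD : ∀ B, B ∈ D ↔ (∃ x y z, t x y z = 1 ∧ ({x, y, z} : Multiset (Fin v)) = B) ∨
      (∃ x y, M x y ∧ ({x, x, y} : Multiset (Fin v)) = B) := by
    intro B
    simp only [hDdef, mem_union, mem_image, mem_filter, mem_univ, true_and, Prod.exists]
  have tdist : ∀ x y z, t x y z = 1 → x ≠ y ∧ y ≠ z ∧ x ≠ z := by
    intro x y z h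
    refine ⟨?_, ?_, ?_⟩
    · rintro rfl; rw [ht.diag] at h; exact absurd h (by norm_num)
    · rintro rfl; rw [ht.diag23] at h; exact absurd h (by norm_num)
    · rintro rfl; rw [ht.diag13] at h; exact absurd h (by norm_num)
  have tperm : ∀ x y z, t x z y = t x y z ∧ t y x z = t x y z ∧ t y z x = t x y z ∧
      t z x y = t x y z ∧ t z y x = t x y z := by
    intro x y z
    have s12 := ht.swap12
    have s23 := ht.swap23
    refine ⟨s23 _ _ _, s12 _ _ _, ?_, ?_, ?_⟩
    · rw [s23 y z x, s12 y x z]
    · rw [s12 z x y, s23 x z y]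
    · rw [s23 z y x, s12 z x y, s23 x z y]
  have mem3 : ∀ i j z, i ≠ j → j ≠ z → i ≠ z →
      (({i, j, z} : Multiset (Fin v)) ∈ D ↔ t i j z = 1) := by
    intro i j z hij hjz hiz
    rw [memD]
    constructor
    · rintro (⟨x, y, w, h1, h2⟩ | ⟨x, y, h1, h2⟩)
      · have hp := tperm i j z
        rcases triple_perm h2 with ⟨rfl, rfl, rfl⟩ | ⟨rfl, rfl, rfl⟩ | ⟨rfl, rfl, rfl⟩ |
          ⟨rfl, rfl, rfl⟩ | ⟨rfl, rfl, rfl⟩ | ⟨rfl, rfl, rfl⟩ <;> omega
      · rcases triple_perm h2 with ⟨a, b, c⟩ | ⟨a, b, c⟩ | ⟨a, b, c⟩ |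
          ⟨a, b, c⟩ | ⟨a, b, c⟩ | ⟨a, b, c⟩
        · exact absurd (a.symm.trans b) hij
        · exact absurd (a.symm.trans b) hiz
        · exact absurd (b.symm.trans a) hij
        · exact absurd (a.symm.trans b) hjz
        · exact absurd (b.symm.trans a) hiz
        · exact absurd (b.symm.trans a) hjz
    · intro h
      exact Or.inl ⟨i, j, z, h, rfl⟩
  have mem2 : ∀ i j, i ≠ j → (({i, i, j} : Multiset (Fin v)) ∈ D ↔ M i j) := by
    intro i j hij
    rw [memD]
    constructor
    · rintro (⟨x, y, w, h1, h2⟩ | ⟨x, y, h1, h2⟩)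
      · obtain ⟨d1, d2, d3⟩ := tdist _ _ _ h1
        rcases triple_perm h2 with ⟨a, b, c⟩ | ⟨a, b, c⟩ | ⟨a, b, c⟩ |
          ⟨a, b, c⟩ | ⟨a, b, c⟩ | ⟨a, b, c⟩
        · exact absurd (a.trans b.symm) d1
        · exact absurd (a.trans c.symm) d3
        · exact absurd (a.trans b.symm) d1
        · exact absurd (a.trans c.symm) d3
        · exact absurd (b.trans c.symm) d2
        · exact absurd (b.trans c.symm) d2
      · rcases triple_perm h2 with ⟨a, b, c⟩ | ⟨a, b, c⟩ | ⟨a, b, c⟩ |
          ⟨a, b, c⟩ | ⟨a, b, c⟩ | ⟨a, b, c⟩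
        · rw [← a, ← c]; exact h1
        · exact absurd (a.symm.trans b) hij
        · rw [← a, ← c]; exact h1
        · exact absurd (a.symm.trans b) hij
        · exact absurd (b.symm.trans a) hij
        · exact absurd (b.symm.trans a) hij
    · intro h
      exact Or.inr ⟨i, j, h, rfl⟩
  have hcard : ∀ B ∈ D, Multiset.card B = 3 := by
    intro B hB
    rcases (memD B).mp hB with ⟨x, y, z, _, rfl⟩ | ⟨x, y, _, rfl⟩ <;> simp
  have hbal : ∀ i j : Fin v, i ≠ j → concurrence D.toList i j = lam := by
    intro i j hij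
    rw [concurrence_eq D.toList D.nodup_toList (fun B hB => hcard B (mem_toList.mp hB)) i j hij,
      sum_split _ i j hij]
    simp only [mem_toList]
    have e1 : (∑ z, if i ≠ j ∧ j ≠ z ∧ i ≠ z then (if ({i, j, z} : Multiset (Fin v)) ∈ D then
      1 + (if z = i then 1 else 0) + (if z = j then 1 else 0) else 0) else 0)
      = ∑ z, t i j z := by
      apply sum_congr rfl
      intro z _
      by_cases h1 : i ≠ j ∧ j ≠ z ∧ i ≠ z
      · have h2 : ¬ z = i := fun e => h1.2.2 e.symm
        have h3 : ¬ z = j := fun e => h1.2.1 e.symm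
        have hle := ht.le_one i j z
        simp only [if_pos h1, if_neg h2, if_neg h3, add_zero, mem3 i j z h1.1 h1.2.1 h1.2.2]
        split_ifs <;> omega
      · rw [if_neg h1]
        by_cases h4 : j = z
        · subst h4; rw [ht.diag23]
        · by_cases h5 : i = z
          · subst h5; rw [ht.diag13]
          · exact absurd ⟨hij, h4, h5⟩ h1
    rw [e1]
    have eI : ({i, j, i} : Multiset (Fin v)) = {i, i, j} := by rw [Multiset.pair_comm]
    have eJ : ({i, j, j} : Multiset (Fin v)) = {j, j, i} := by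
      simp only [Multiset.insert_eq_cons]
      rw [← Multiset.singleton_add, ← Multiset.singleton_add, ← Multiset.singleton_add j,
        ← Multiset.singleton_add j]
      abel
    rw [eI, eJ]
    simp only [mem2 i j hij, mem2 j i hij.symm, if_true, if_neg hij, if_neg hij.symm, add_zero]
    have hms := hmsymm i j hij
    have hsum := hs i j hij
    have hmle := hm i j hij
    have hcase : (if M i j then 1 + 1 else 0) + (if M j i then 1 + 1 else 0) = 2 * m i j := by
      have hlt : i < j ∨ j < i := lt_or_gt_of_ne hij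
      have hMij : M i j ↔ (m i j = 2 ∨ (m i j = 1 ∧ i < j)) := by
        simp only [hM, ne_eq, hij, not_false_eq_true, true_and]
      have hMji : M j i ↔ (m i j = 2 ∨ (m i j = 1 ∧ j < i)) := by
        simp only [hM, ne_eq, hij.symm, not_false_eq_true, true_and, hms]
      rw [if_congr hMij rfl rfl, if_congr hMji rfl rfl]
      have h012 : m i j = 0 ∨ m i j = 1 ∨ m i j = 2 := by omega
      rcases h012 with h | h | h
      · simp [h]
      · rcases hlt with hl | hl
        · simp [h, hl, hl.le]
        · simp [h, hl, hl.le]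
      · simp [h]
    omega
  refine ⟨D.toList, ⟨?_, ⟨_, _, info_of_balanced D.toList
    (fun B hB => hcard B (mem_toList.mp hB)) lam hbal⟩, hbal⟩, D.nodup_toList⟩
  · intro B hB
    rw [mem_toList] at hB
    refine ⟨hcard B hB, ?_⟩
    intro a hBa
    rcases (memD B).mp hB with ⟨x, y, z, h1, h2⟩ | ⟨x, y, h1, h2⟩
    · rw [hBa] at h2
      have hx : x ∈ ({a, a, a} : Multiset (Fin v)) := by rw [← h2]; simp
      have hy : y ∈ ({a, a, a} : Multiset (Fin v)) := by rw [← h2]; simp
      simp only [Multiset.insert_eq_cons, Multiset.mem_cons, Multiset.mem_singleton, or_self] at hx hy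
      exact (tdist _ _ _ h1).1 (hx.trans hy.symm)
    · rw [hBa] at h2
      have hx : x ∈ ({a, a, a} : Multiset (Fin v)) := by rw [← h2]; simp
      have hy : y ∈ ({a, a, a} : Multiset (Fin v)) := by rw [← h2]; simp
      simp only [Multiset.insert_eq_cons, Multiset.mem_cons, Multiset.mem_singleton, or_self] at hx hy
      exact h1.1 (hx.trans hy.symm)

end Pool.Agent.Lib.MP_588841_co
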