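import Pool.Agent.Lib.MP_588841_co.Basic

/-! The construction on an even number of points. -/

set_option autoImplicit false

namespace Pool.Agent.Lib.MP_588841_co

open Finset

lemma sum_zmod (n : ℕ) [NeZero n] (F : ZMod n → ℕ) :
    ∑ d, F d = ∑ i ∈ range n, F (i : ZMod n) := by
  apply Finset.sum_nbij' (fun d : ZMod n => d.val) (fun i : ℕ => (i : ZMod n))
  · intro d _; exact mem_range.mpr (ZMod.val_lt d)
  · intro i _; exact mem_univ _
  · intro d _; exact ZMod.natCast_zmod_val d
  · intro i hi; exact ZMod.val_cast_of_lt (mem_range.mp hi)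
  · intro d _; rw [ZMod.natCast_zmod_val]

section core

variable (g : ℕ) (w : ℕ → ℕ)

/-- the indicator function of the set `S` of sums -/
def chi (s : ZMod (2 * g)) : ℕ := w s.val

def ka (x y z : ZMod (2 * g)) : ℕ := if x ≠ y ∧ y ≠ z ∧ x ≠ z then chi g w (x + y + z) else 0

def kb (x y : ZMod (2 * g)) (β : Bool) : ℕ :=
  if x = y then 0 else
    if (y - x).val ≤ g then (if β then chi g w (2 * x + y) else chi g w (x + 2 * y))
    else (if β then chi g w (x + 2 * y) else chi g w (2 * x + y))

def kc (x : ZMod (2 * g)) (β β' : Bool) : ℕ := if β ≠ β' then chi g w (3 * x) else 0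

variable {g w}

lemma chi_cast [NeZero (2 * g)] (hper : ∀ i, w (i + g) = w i) (i : ℕ) :
    chi g w (i : ZMod (2 * g)) = w i := by
  unfold chi
  rw [ZMod.val_natCast]
  have h1 : Function.Periodic w (2 * g) := by
    intro i
    rw [two_mul, ← add_assoc, hper, hper]
  exact h1.map_mod_nat i

lemma chi_add [NeZero (2 * g)] (hper : ∀ i, w (i + g) = w i) (s : ZMod (2 * g)) :
    chi g w (s + (g : ZMod (2 * g))) = chi g w s := by
  rw [← ZMod.natCast_zmod_val s, ← Nat.cast_add, chi_cast hper, chi_cast hper, hper]

lemma sum_chi [NeZero (2 * g)] (hper : ∀ i, w (i + g) = w i) (k : ℕ)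
    (h2 : ∀ t, ∑ j ∈ range g, w (t + j) = k) : ∑ z, chi g w z = 2 * k := by
  rw [sum_zmod]
  simp only [chi_cast hper]
  rw [two_mul g, Finset.sum_range_add, h2 g]
  have := h2 0
  simp only [zero_add] at this
  rw [this]; ring

lemma kb_symm [NeZero (2 * g)] (hper : ∀ i, w (i + g) = w i) (x y : ZMod (2 * g)) (β : Bool) :
    kb g w x y β = kb g w y x β := by
  unfold kb
  by_cases hxy : x = y
  · subst hxy; rfl
  · have hyx : ¬ y = x := fun h => hxy h.symm
    rw [if_neg hxy, if_neg hyx]
    have hne : y - x ≠ 0 := fun h => hxy (sub_eq_zero.mp h).symm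
    have hv : (x - y).val = 2 * g - (y - x).val := by
      have : x - y = -(y - x) := by ring
      rw [this, ZMod.neg_val, if_neg hne]
    have hlt := ZMod.val_lt (y - x)
    have hpos : 0 < (y - x).val := Nat.pos_of_ne_zero (fun h => hne ((ZMod.val_eq_zero _).mp h))
    rw [hv]
    have c1 : (2 * x + y) = (y + 2 * x) := by ring
    have c2 : (x + 2 * y) = (2 * y + x) := by ring
    rcases lt_trichotomy (y - x).val g with h | h | h
    · have hB : ¬ (2 * g - (y - x).val ≤ g) := by omega
      rw [if_pos h.le, if_neg hB, c1, c2]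
    · have hB : 2 * g - (y - x).val ≤ g := by omega
      rw [if_pos h.le, if_pos hB]
      have hy : y = x + (g : ZMod (2 * g)) := by
        have : y - x = ((y - x).val : ZMod (2 * g)) := (ZMod.natCast_zmod_val _).symm
        rw [h] at this
        rw [← this]; ring
      have h2g : (2 * (g : ZMod (2 * g))) = 0 := by
        have := ZMod.natCast_self (2 * g)
        push_cast at this
        exact this
      have e1 : chi g w (2 * x + y) = chi g w (3 * x) := by
        rw [hy]
        have : 2 * x + (x + (g : ZMod (2 * g))) = 3 * x + g := by ring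
        rw [this, chi_add hper]
      have e2 : chi g w (x + 2 * y) = chi g w (3 * x) := by
        rw [hy]
        have : x + 2 * (x + (g : ZMod (2 * g))) = 3 * x + 2 * g := by ring
        rw [this, h2g, add_zero]
      rw [← c1, ← c2, e1, e2]
    · have hA : ¬ ((y - x).val ≤ g) := by omega
      have hB : 2 * g - (y - x).val ≤ g := by omega
      rw [if_neg hA, if_pos hB, c1, c2]

lemma kb_sum [NeZero (2 * g)] (hg : 0 < g) (hper : ∀ i, w (i + g) = w i) (k : ℕ)
    (h2 : ∀ t, ∑ j ∈ range g, w (t + j) = k) (h3 : ∀ t, ∑ j ∈ range g, w (t + 2 * j) = k)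
    (x : ZMod (2 * g)) (β : Bool) : ∑ z, kb g w x z β + chi g w (3 * x) = 2 * k := by
  have e0 : ∑ z, kb g w x z β = ∑ d, kb g w x (x + d) β :=
    (Equiv.sum_comp (Equiv.addLeft x) (fun z => kb g w x z β)).symm
  rw [e0, sum_zmod]
  set X := x.val with hX
  have hx : x = (X : ZMod (2 * g)) := (ZMod.natCast_zmod_val x).symm
  have hc : chi g w (3 * x) = w (3 * X) := by
    rw [hx]
    have : (3 * (X : ZMod (2 * g))) = ((3 * X : ℕ) : ZMod (2 * g)) := by push_cast; ring
    rw [this, chi_cast hper]
  have hterm : ∀ i ∈ range (2 * g), kb g w x (x + (i : ZMod (2 * g))) β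
      = if i = 0 then 0 else if i ≤ g then (if β then w (3 * X + i) else w (3 * X + 2 * i))
        else (if β then w (3 * X + 2 * i) else w (3 * X + i)) := by
    intro i hi
    have hi' := mem_range.mp hi
    unfold kb
    have hval : ((i : ZMod (2 * g))).val = i := ZMod.val_cast_of_lt hi'
    by_cases h0 : i = 0
    · subst h0; simp
    · have hne : x ≠ x + (i : ZMod (2 * g)) := by
        intro h
        have h1 : (i : ZMod (2 * g)) = 0 := by
          have := congrArg (fun t => t - x) h
          simp only [sub_self, add_sub_cancel_left] at this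
          exact this.symm
        rw [h1, ZMod.val_zero] at hval
        exact h0 hval.symm
      rw [if_neg hne, if_neg h0]
      have hs : x + (i : ZMod (2 * g)) - x = i := by ring
      rw [hs, hval]
      have c1 : chi g w (2 * x + (x + (i : ZMod (2 * g)))) = w (3 * X + i) := by
        rw [hx]
        have : (2 * (X : ZMod (2 * g)) + (X + i)) = ((3 * X + i : ℕ) : ZMod (2 * g)) := by
          push_cast; ring
        rw [this, chi_cast hper]
      have c2 : chi g w (x + 2 * (x + (i : ZMod (2 * g)))) = w (3 * X + 2 * i) := by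
        rw [hx]
        have : ((X : ZMod (2 * g)) + 2 * (X + i)) = ((3 * X + 2 * i : ℕ) : ZMod (2 * g)) := by
          push_cast; ring
        rw [this, chi_cast hper]
      rw [c1, c2]
  rw [Finset.sum_congr rfl hterm, hc, two_mul g, Finset.sum_range_add]
  obtain ⟨g', rfl⟩ : ∃ g', g = g' + 1 := ⟨g - 1, by omega⟩
  have per2 : ∀ i, w (i + 2 * (g' + 1)) = w i := by
    intro i; rw [two_mul, ← add_assoc, hper, hper]
  cases β with
  | true =>
    have s1 : (∑ i ∈ range (g' + 1), if i = 0 then 0 else if i ≤ g' + 1 then
        (if true = true then w (3 * X + i) else w (3 * X + 2 * i))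
        else (if true = true then w (3 * X + 2 * i) else w (3 * X + i))) + w (3 * X) = k := by
      rw [← h2 (3 * X), sum_range_succ', sum_range_succ']
      simp only [if_true, Nat.succ_ne_zero, if_false, add_zero]
      congr 1
      apply sum_congr rfl
      intro i hi
      rw [if_pos (by have := mem_range.mp hi; omega)]
    have s2 : (∑ j ∈ range (g' + 1), if g' + 1 + j = 0 then 0 else if g' + 1 + j ≤ g' + 1 then
        (if true = true then w (3 * X + (g' + 1 + j)) else w (3 * X + 2 * (g' + 1 + j)))
        else (if true = true then w (3 * X + 2 * (g' + 1 + j)) else w (3 * X + (g' + 1 + j))))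
        = k := by
      rw [← h3 (3 * X)]
      apply sum_congr rfl
      intro j _
      rw [if_neg (by omega)]
      simp only [if_true]
      by_cases hj : j = 0
      · subst hj; simp only [add_zero, mul_zero, le_refl, if_true]
        exact hper (3 * X)
      · rw [if_neg (by omega)]
        have : 3 * X + 2 * (g' + 1 + j) = 3 * X + 2 * j + 2 * (g' + 1) := by ring
        rw [this, per2]
    omega
  | false =>
    have s1 : (∑ i ∈ range (g' + 1), if i = 0 then 0 else if i ≤ g' + 1 then
        (if false = true then w (3 * X + i) else w (3 * X + 2 * i))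
        else (if false = true then w (3 * X + 2 * i) else w (3 * X + i))) + w (3 * X) = k := by
      rw [← h3 (3 * X), sum_range_succ', sum_range_succ']
      simp only [Bool.false_eq_true, if_false, if_true, Nat.succ_ne_zero, mul_zero, add_zero]
      congr 1
      apply sum_congr rfl
      intro i hi
      rw [if_pos (by have := mem_range.mp hi; omega)]
    have s2 : (∑ j ∈ range (g' + 1), if g' + 1 + j = 0 then 0 else if g' + 1 + j ≤ g' + 1 then
        (if false = true then w (3 * X + (g' + 1 + j)) else w (3 * X + 2 * (g' + 1 + j)))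
        else (if false = true then w (3 * X + 2 * (g' + 1 + j)) else w (3 * X + (g' + 1 + j))))
        = k := by
      rw [← h2 (3 * X + (g' + 1))]
      apply sum_congr rfl
      intro j _
      rw [if_neg (by omega)]
      simp only [Bool.false_eq_true, if_false]
      by_cases hj : j = 0
      · subst hj; simp only [add_zero, le_refl, if_true]
        rw [per2, hper]
      · rw [if_neg (by omega)]
        congr 1
        ring
    omega

theorem core_good (hg : 0 < g) (hw1 : ∀ i, w i ≤ 1) (hper : ∀ i, w (i + g) = w i) (k lam : ℕ)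
    (h2 : ∀ t, ∑ j ∈ range g, w (t + j) = k) (h3 : ∀ t, ∑ j ∈ range g, w (t + 2 * j) = k)
    (hl : Window lam (2 * k)) (hc : Window lam (∑ i ∈ range (2 * g), w (3 * i)))
    [NeZero (2 * g)] :
    Good (ZMod (2 * g) ⊕ Bool) lam := by
  apply good_glue lam (ka g w) (kb g w) (kc g w) (fun _ _ _ => 0)
  · refine ⟨?_, ?_, ?_, ?_⟩
    · intro x y z; unfold ka chi; split_ifs
      · exact hw1 _
      · norm_num
    · intro x y z; unfold ka
      have : (x ≠ y ∧ y ≠ z ∧ x ≠ z) ↔ (y ≠ x ∧ x ≠ z ∧ y ≠ z) := by
        constructor
        · rintro ⟨a, b, c⟩; exact ⟨a.symm, c, b⟩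
        · rintro ⟨a, b, c⟩; exact ⟨a.symm, c, b⟩
      simp only [this]
      rw [add_comm x y]
    · intro x y z; unfold ka
      have : (x ≠ y ∧ y ≠ z ∧ x ≠ z) ↔ (x ≠ z ∧ z ≠ y ∧ x ≠ y) := by
        constructor
        · rintro ⟨a, b, c⟩; exact ⟨c, b.symm, a⟩
        · rintro ⟨a, b, c⟩; exact ⟨c, b.symm, a⟩
      simp only [this]
      rw [add_right_comm x y z]
    · intro x y; unfold ka; simp
  · exact ⟨fun _ _ _ => by norm_num, fun _ _ _ => rfl, fun _ _ _ => rfl, fun _ _ => rfl⟩
  · intro x y β; unfold kb chi; split_ifs <;> first | exact hw1 _ | norm_num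
  · intro x y β; exact kb_symm hper x y β
  · intro x β; unfold kb; simp
  · intro x β β'; unfold kc chi; split_ifs
    · exact hw1 _
    · norm_num
  · intro x β β'; unfold kc
    have : (β ≠ β') ↔ (β' ≠ β) := ⟨Ne.symm, Ne.symm⟩
    simp only [this]
  · intro x β; unfold kc; simp
  · intro x y hxy
    have e1 : ∑ β : Bool, kb g w x y β = chi g w (2 * x + y) + chi g w (x + 2 * y) := by
      rw [Fintype.sum_bool]
      unfold kb
      rw [if_neg hxy, if_neg hxy]
      by_cases h : (y - x).val ≤ g
      · simp [h]
      · simp [h, add_comm]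
    have e2 : ∑ z, ka g w x y z + (chi g w (2 * x + y) + chi g w (x + 2 * y)) = 2 * k := by
      rw [← sum_chi hper k h2]
      have h4 : ∑ z, chi g w z = ∑ z, chi g w (x + y + z) :=
        (Equiv.sum_comp (Equiv.addLeft (x + y)) (fun z => chi g w z)).symm
      rw [h4]
      have h5 : ∀ z, chi g w (x + y + z) = ka g w x y z +
          ((if z = x then chi g w (2 * x + y) else 0) + (if z = y then chi g w (x + 2 * y) else 0)) := by
        intro z
        unfold ka
        by_cases hz : z = x
        · subst hz
          have : z + y + z = 2 * z + y := by ring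
          simp [hxy, this]
        · by_cases hz' : z = y
          · subst hz'
            have : x + z + z = x + 2 * z := by ring
            simp [hz, this]
          · rw [if_pos ⟨hxy, fun h => hz' h.symm, fun h => hz h.symm⟩, if_neg hz, if_neg hz',
              add_zero, add_zero]
      simp only [h5]
      rw [sum_add_distrib, sum_add_distrib]
      simp
    rw [e1, e2]; exact hl
  · intro x β
    have e1 : ∑ β' : Bool, kc g w x β β' = chi g w (3 * x) := by
      rw [Fintype.sum_bool]
      unfold kc
      cases β <;> simp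
    rw [e1, kb_sum hg hper k h2 h3]; exact hl
  · intro β β' hβ
    have e1 : ∑ x, kc g w x β β' = ∑ i ∈ range (2 * g), w (3 * i) := by
      rw [sum_zmod]
      apply sum_congr rfl
      intro i _
      unfold kc
      rw [if_pos hβ]
      have : (3 * (i : ZMod (2 * g))) = ((3 * i : ℕ) : ZMod (2 * g)) := by push_cast; ring
      rw [this, chi_cast hper]
    rw [e1, sum_const_zero, add_zero]; exact hc

end core

end Pool.Agent.Lib.MP_588841_co
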