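import Pool.Agent.Lib.MP_588841_co.Even

/-! Existence for an even number of points. -/

set_option autoImplicit false

namespace Pool.Agent.Lib.MP_588841_co

open Finset

/-- periodic indicator function of an interval -/
def wi (g a k i : ℕ) : ℕ := if a ≤ i % g ∧ i % g < a + k then 1 else 0

lemma wi_le_one (g a k i : ℕ) : wi g a k i ≤ 1 := by
  unfold wi; split_ifs <;> norm_num

lemma wi_per (g a k i : ℕ) : wi g a k (i + g) = wi g a k i := by
  unfold wi; rw [Nat.add_mod_right]

lemma sum_shift (g : ℕ) (w : ℕ → ℕ) (hper : ∀ i, w (i + g) = w i) (t : ℕ) :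
    ∑ j ∈ range g, w (t + j) = ∑ j ∈ range g, w j := by
  induction t with
  | zero => simp
  | succ t ih =>
    rw [← ih]
    have h1 := sum_range_succ (fun j => w (t + j)) g
    have h2 := sum_range_succ' (fun j => w (t + j)) g
    rw [h1] at h2
    simp only [add_zero, hper] at h2
    have h3 : ∑ j ∈ range g, w (t + 1 + j) = ∑ j ∈ range g, w (t + (j + 1)) := by
      apply sum_congr rfl; intro j _; congr 1; ring
    rw [h3]
    omega

lemma sum_shift2 (g : ℕ) (w : ℕ → ℕ) (hper : ∀ i, w (i + g) = w i) (t : ℕ) :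
    ∑ j ∈ range g, w (t + 2 + 2 * j) = ∑ j ∈ range g, w (t + 2 * j) := by
  have h1 := sum_range_succ (fun j => w (t + 2 * j)) g
  have h2 := sum_range_succ' (fun j => w (t + 2 * j)) g
  rw [h1] at h2
  have h4 : w (t + 2 * g) = w t := by rw [two_mul, ← add_assoc, hper, hper]
  simp only [mul_zero, add_zero, h4] at h2
  have h3 : ∑ j ∈ range g, w (t + 2 + 2 * j) = ∑ j ∈ range g, w (t + 2 * (j + 1)) := by
    apply sum_congr rfl; intro j _; congr 1; ring
  rw [h3]
  omega

lemma sum_shift2' (g : ℕ) (w : ℕ → ℕ) (hper : ∀ i, w (i + g) = w i) (t s : ℕ) :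
    ∑ j ∈ range g, w (t + 2 * s + 2 * j) = ∑ j ∈ range g, w (t + 2 * j) := by
  induction s with
  | zero => simp
  | succ s ih =>
    rw [← ih]
    have := sum_shift2 g w hper (t + 2 * s)
    rw [← this]
    apply sum_congr rfl; intro j _; congr 1

lemma sum_two_mul (g : ℕ) (w : ℕ → ℕ) :
    ∑ i ∈ range (2 * g), w i = ∑ j ∈ range g, w (2 * j) + ∑ j ∈ range g, w (1 + 2 * j) := by
  induction g with
  | zero => simp
  | succ g ih =>
    rw [show 2 * (g + 1) = 2 * g + 1 + 1 by ring, sum_range_succ, sum_range_succ, ih,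
      sum_range_succ, sum_range_succ, add_comm 1 (2 * g)]
    ring

lemma sum_wi (g a k : ℕ) (h : a + k ≤ g) : ∑ j ∈ range g, wi g a k j = k := by
  unfold wi
  rw [← card_filter]
  have : (range g).filter (fun j => a ≤ j % g ∧ j % g < a + k) = Ico a (a + k) := by
    ext j
    simp only [mem_filter, mem_range, mem_Ico]
    constructor
    · rintro ⟨h1, h2, h3⟩
      rw [Nat.mod_eq_of_lt h1] at h2 h3
      exact ⟨h2, h3⟩
    · rintro ⟨h1, h2⟩
      have h3 : j < g := by omega
      rw [Nat.mod_eq_of_lt h3]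
      exact ⟨h3, h1, h2⟩
  rw [this]; simp

lemma P2_wi (g a k : ℕ) (h : a + k ≤ g) (t : ℕ) : ∑ j ∈ range g, wi g a k (t + j) = k := by
  rw [sum_shift g (wi g a k) (wi_per g a k), sum_wi g a k h]

lemma P3_wi (g a k : ℕ) (h : a + k ≤ g) (hpar : g % 2 = 1 ∨ (g % 2 = 0 ∧ a % 2 = 0 ∧ k % 2 = 0))
    (t : ℕ) : ∑ j ∈ range g, wi g a k (t + 2 * j) = k := by
  have hper := wi_per g a k
  have hsum : ∑ j ∈ range g, wi g a k (2 * j) + ∑ j ∈ range g, wi g a k (1 + 2 * j) = 2 * k := by
    rw [← sum_two_mul, two_mul g, sum_range_add, P2_wi g a k h, sum_wi g a k h]; ring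
  have heq : ∑ j ∈ range g, wi g a k (1 + 2 * j) = ∑ j ∈ range g, wi g a k (2 * j) := by
    rcases hpar with hg | ⟨hg, ha, hk⟩
    · have e1 : ∑ j ∈ range g, wi g a k (1 + 2 * j) = ∑ j ∈ range g, wi g a k (0 + 2 * ((g + 1) / 2) + 2 * j) := by
        apply sum_congr rfl
        intro j _
        have : 0 + 2 * ((g + 1) / 2) + 2 * j = (1 + 2 * j) + g := by omega
        rw [this, hper]
      rw [e1, sum_shift2' g _ hper]
      simp
    · apply sum_congr rfl
      intro j _
      unfold wi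
      have hg0 : 0 < g := by
        rename_i hj
        exact lt_of_le_of_lt (Nat.zero_le _) (mem_range.mp hj)
      have hmod : (2 * j) % g % 2 = 0 := by
        have h1 := Nat.mod_add_div (2 * j) g
        obtain ⟨g', rfl⟩ : ∃ g', g = 2 * g' := ⟨g / 2, by omega⟩
        have h2 : 2 * g' * (2 * j / (2 * g')) = 2 * (g' * (2 * j / (2 * g'))) := by ring
        rw [h2] at h1
        omega
      have hlt : (2 * j) % g < g := Nat.mod_lt _ hg0
      have hne : (2 * j) % g + 1 < g := by omega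
      have h3 : (1 + 2 * j) % g = (2 * j) % g + 1 := by
        rw [add_comm, Nat.add_mod]
        have h1g : 1 % g = 1 := Nat.mod_eq_of_lt (by omega)
        rw [h1g, Nat.mod_eq_of_lt hne]
      rw [h3]
      have : (a ≤ (2 * j) % g + 1 ∧ (2 * j) % g + 1 < a + k) ↔ (a ≤ (2 * j) % g ∧ (2 * j) % g < a + k) := by
        omega
      simp only [this]
  have h0 : ∑ j ∈ range g, wi g a k (2 * j) = k := by omega
  have h1 : ∑ j ∈ range g, wi g a k (1 + 2 * j) = k := by omega
  rcases Nat.mod_two_eq_zero_or_one t with ht | ht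
  · have : t = 0 + 2 * (t / 2) := by omega
    rw [this, sum_shift2' g _ hper]
    simpa using h0
  · have : t = 1 + 2 * (t / 2) := by omega
    rw [this, sum_shift2' g _ hper]
    exact h1

/-- the sum over multiples of three, when `3` does not divide `g` -/
lemma sum_three_coprime (g : ℕ) [NeZero g] (w : ℕ → ℕ) (hper : ∀ i, w (i + g) = w i)
    (h3 : Nat.Coprime 3 g) : ∑ i ∈ range g, w (3 * i) = ∑ i ∈ range g, w i := by
  have hmod : ∀ i, w (i % g) = w i := by
    intro i
    exact Function.Periodic.map_mod_nat (f := w) (a := g) hper i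
  have e1 : ∑ i ∈ range g, w (3 * i) = ∑ d : ZMod g, w (3 * d).val := by
    rw [sum_zmod]
    apply sum_congr rfl
    intro i _
    have : (3 * (i : ZMod g)) = ((3 * i : ℕ) : ZMod g) := by push_cast; ring
    rw [this, ZMod.val_natCast, hmod]
  have e2 : ∑ i ∈ range g, w i = ∑ d : ZMod g, w d.val := by
    rw [sum_zmod]
    apply sum_congr rfl
    intro i _
    rw [ZMod.val_natCast, hmod]
  rw [e1, e2]
  have h5 : ∀ d : ZMod g, 3 * d = (Units.mulLeft (ZMod.unitOfCoprime 3 h3)) d := by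
    intro d
    simp [ZMod.coe_unitOfCoprime]
  simp only [h5]
  exact Equiv.sum_comp (Units.mulLeft (ZMod.unitOfCoprime 3 h3)) (fun d : ZMod g => w d.val)

lemma cinf_coprime (g a k : ℕ) [NeZero g] (h : a + k ≤ g) (h3 : Nat.Coprime 3 g) :
    ∑ i ∈ range (2 * g), wi g a k (3 * i) = 2 * k := by
  have hper := wi_per g a k
  rw [two_mul g, sum_range_add, sum_three_coprime g _ hper h3, sum_wi g a k h]
  have : ∑ x ∈ range g, wi g a k (3 * (g + x)) = ∑ x ∈ range g, wi g a k (3 * x) := by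
    apply sum_congr rfl
    intro i _
    have : 3 * (g + i) = 3 * i + g + g + g := by ring
    rw [this, hper, hper, hper]
  rw [this, sum_three_coprime g _ hper h3, sum_wi g a k h]
  ring

lemma cinf_three (g' a k c : ℕ)
    (hc : ∑ i ∈ range g', (if a ≤ 3 * i ∧ 3 * i < a + k then 1 else 0) = c) :
    ∑ i ∈ range (2 * (3 * g')), wi (3 * g') a k (3 * i) = 6 * c := by
  have hper := wi_per (3 * g') a k
  have hper' : ∀ i, (fun i => wi (3 * g') a k (3 * i)) (i + g') = (fun i => wi (3 * g') a k (3 * i)) i := by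
    intro i
    dsimp only
    rw [mul_add, hper]
  have h0 : ∑ i ∈ range g', wi (3 * g') a k (3 * i) = c := by
    rw [← hc]
    apply sum_congr rfl
    intro i hi
    unfold wi
    rw [Nat.mod_eq_of_lt (by have := mem_range.mp hi; omega)]
  have hs := sum_shift g' (fun i => wi (3 * g') a k (3 * i)) hper'
  have e : 2 * (3 * g') = g' + g' + g' + g' + g' + g' := by ring
  have hr : (range (2 * (3 * g'))) = range (g' + g' + g' + g' + g' + g') := by rw [e]
  rw [hr, sum_range_add, sum_range_add, sum_range_add, sum_range_add, sum_range_add]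
  have h1 := hs g'
  have h2 := hs (g' + g')
  have h3 := hs (g' + g' + g')
  have h4 := hs (g' + g' + g' + g')
  have h5 := hs (g' + g' + g' + g' + g')
  rw [h1, h2, h3, h4, h5, h0]
  ring

lemma count0 (g' k : ℕ) (h : k ≤ 3 * g') :
    ∑ i ∈ range g', (if 0 ≤ 3 * i ∧ 3 * i < 0 + k then 1 else 0) = (k + 2) / 3 := by
  rw [← card_filter]
  have : (range g').filter (fun i => 0 ≤ 3 * i ∧ 3 * i < 0 + k) = range ((k + 2) / 3) := by
    ext i
    simp only [mem_filter, mem_range]
    omega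
  rw [this]; simp

lemma count2 (g' k : ℕ) (h : 2 + k ≤ 3 * g') :
    ∑ i ∈ range g', (if 2 ≤ 3 * i ∧ 3 * i < 2 + k then 1 else 0) = (k + 1) / 3 := by
  rw [← card_filter]
  have : (range g').filter (fun i => 2 ≤ 3 * i ∧ 3 * i < 2 + k) = Ico 1 ((k + 1) / 3 + 1) := by
    ext i
    simp only [mem_filter, mem_range, mem_Ico]
    omega
  rw [this]; simp

lemma window_of (lam c : ℕ) (h : c = lam ∨ c + 2 = lam ∨ c + 4 = lam) : Window lam c := by
  rcases h with h | h | h
  · exact ⟨0, by norm_num, by omega⟩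
  · exact ⟨1, by norm_num, by omega⟩
  · exact ⟨2, by norm_num, by omega⟩

lemma cinf0 (g k : ℕ) [NeZero g] (h : k ≤ g) :
    Window (2 * k + 4) (∑ i ∈ range (2 * g), wi g 0 k (3 * i)) := by
  by_cases h3 : 3 ∣ g
  · obtain ⟨g', rfl⟩ := h3
    rw [cinf_three g' 0 k _ (count0 g' k h)]
    apply window_of; omega
  · have hcop : Nat.Coprime 3 g := (Nat.Prime.coprime_iff_not_dvd Nat.prime_three).mpr h3
    rw [cinf_coprime g 0 k (by omega) hcop]
    apply window_of; omega

lemma cinf2 (g k : ℕ) [NeZero g] (h : 2 + k ≤ g) :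
    Window (2 * k + 2) (∑ i ∈ range (2 * g), wi g 2 k (3 * i)) := by
  by_cases h3 : 3 ∣ g
  · obtain ⟨g', rfl⟩ := h3
    rw [cinf_three g' 2 k _ (count2 g' k h)]
    apply window_of; omega
  · have hcop : Nat.Coprime 3 g := (Nat.Prime.coprime_iff_not_dvd Nat.prime_three).mpr h3
    rw [cinf_coprime g 2 k (by omega) hcop]
    apply window_of; omega

theorem good_even (v lam : ℕ) (hv : v % 2 = 0) (hv2 : 2 ≤ v) (hl : lam % 2 = 0)
    (h : lam ≤ v + 2) : Good (Fin v) lam := by
  by_cases h0 : lam = 0 ∨ lam = 2 ∨ lam = 4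
  · exact good_zero _ _ h0
  by_cases h1 : v ≤ lam
  · have hz : Good (Fin v) (v + 2 - lam) := good_zero _ _ (by omega)
    have := good_compl (V := Fin v) (v + 2 - lam) (by simp) hz
    have e : Fintype.card (Fin v) + 2 - (v + 2 - lam) = lam := by simp; omega
    rwa [e] at this
  -- now 6 ≤ lam ≤ v - 2
  obtain ⟨g, rfl⟩ : ∃ g, v = 2 * g + 2 := ⟨(v - 2) / 2, by omega⟩
  have hg : 0 < g := by omega
  have : NeZero g := ⟨hg.ne'⟩
  have : NeZero (2 * g) := ⟨by omega⟩
  have hcard : Fintype.card (ZMod (2 * g) ⊕ Bool) = Fintype.card (Fin (2 * g + 2)) := by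
    simp [ZMod.card]
  obtain ⟨k, rfl⟩ : ∃ k, lam = 2 * k + 4 := ⟨(lam - 4) / 2, by omega⟩
  by_cases hp : g % 2 = 1 ∨ k % 2 = 0
  · apply good_of_card hcard
    apply core_good hg (wi_le_one g 0 k) (wi_per g 0 k) k (2 * k + 4) (P2_wi g 0 k (by omega))
      (P3_wi g 0 k (by omega) (by omega))
    · exact ⟨2, le_refl _, by ring⟩
    · exact cinf0 g k (by omega)
  · apply good_of_card hcard
    apply core_good hg (wi_le_one g 2 (k + 1)) (wi_per g 2 (k + 1)) (k + 1) (2 * k + 4)
      (P2_wi g 2 (k + 1) (by omega)) (P3_wi g 2 (k + 1) (by omega) (by omega))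
    · exact ⟨1, by norm_num, by ring⟩
    · have := cinf2 g (k + 1) (by omega)
      have e : 2 * (k + 1) + 2 = 2 * k + 4 := by ring
      rwa [e] at this

end Pool.Agent.Lib.MP_588841_co
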