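import Pool.Agent.Lib.MP_588841_co.Small

/-! Steiner triple systems: the constructions of Bose and Skolem. -/

set_option autoImplicit false

namespace Pool.Agent.Lib.MP_588841_co

open Finset

section

variable {I : Type} (R : I → I → I → Prop) (δ : I → I)

def PP (x y z : I × ZMod 3) : Prop := x.2 = y.2 ∧ x.1 ≠ y.1 ∧ z.2 = x.2 + 1 ∧ R x.1 y.1 z.1

def Dg (x y z : I × ZMod 3) : Prop :=
  x.1 = y.1 ∧ y.1 = z.1 ∧ δ x.1 = x.1 ∧ x.2 ≠ y.2 ∧ y.2 ≠ z.2 ∧ x.2 ≠ z.2

def Inf (x y : I × ZMod 3) : Prop := y.2 = x.2 + 1 ∧ y.1 = δ x.1 ∧ δ x.1 ≠ x.1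

def T3s (x y z : I × ZMod 3) : Prop := PP R x y z ∨ PP R y z x ∨ PP R z x y ∨ Dg δ x y z

def TT : Option (I × ZMod 3) → Option (I × ZMod 3) → Option (I × ZMod 3) → Prop
  | some x, some y, some z => T3s R δ x y z
  | none, some x, some y => Inf δ x y ∨ Inf δ y x
  | some x, none, some y => Inf δ x y ∨ Inf δ y x
  | some x, some y, none => Inf δ x y ∨ Inf δ y x
  | none, none, _ => False
  | none, some _, none => False
  | some _, none, none => False

variable {R δ}

lemma PP_symm (hs : ∀ i j k, R i j k → R j i k) (x y z : I × ZMod 3) (h : PP R x y z) :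
    PP R y x z := by
  obtain ⟨h1, h2, h3, h4⟩ := h
  exact ⟨h1.symm, h2.symm, by rw [h3, h1], hs _ _ _ h4⟩

lemma T3s_swap12 (hs : ∀ i j k, R i j k → R j i k) (x y z : I × ZMod 3) (h : T3s R δ x y z) :
    T3s R δ y x z := by
  rcases h with h | h | h | h
  · exact Or.inl (PP_symm hs _ _ _ h)
  · exact Or.inr (Or.inr (Or.inl (PP_symm hs _ _ _ h)))
  · exact Or.inr (Or.inl (PP_symm hs _ _ _ h))
  · obtain ⟨a, b, c, d, e, f⟩ := h
    exact Or.inr (Or.inr (Or.inr ⟨a.symm, a.trans b, by rw [← a]; exact c, d.symm, f, e⟩))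

lemma T3s_swap23 (hs : ∀ i j k, R i j k → R j i k) (x y z : I × ZMod 3) (h : T3s R δ x y z) :
    T3s R δ x z y := by
  rcases h with h | h | h | h
  · exact Or.inr (Or.inr (Or.inl (PP_symm hs _ _ _ h)))
  · exact Or.inr (Or.inl (PP_symm hs _ _ _ h))
  · exact Or.inl (PP_symm hs _ _ _ h)
  · obtain ⟨a, b, c, d, e, f⟩ := h
    exact Or.inr (Or.inr (Or.inr ⟨a.trans b, b.symm, c, f, e.symm, d⟩))

lemma TT_swap12 (hs : ∀ i j k, R i j k → R j i k) (x y z : Option (I × ZMod 3)) :
    TT R δ x y z ↔ TT R δ y x z := by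
  rcases x with _ | x <;> rcases y with _ | y <;> rcases z with _ | z <;>
    simp only [TT] <;> first
      | exact Iff.rfl
      | exact Or.comm
      | exact ⟨T3s_swap12 hs _ _ _, T3s_swap12 hs _ _ _⟩

lemma TT_swap23 (hs : ∀ i j k, R i j k → R j i k) (x y z : Option (I × ZMod 3)) :
    TT R δ x y z ↔ TT R δ x z y := by
  rcases x with _ | x <;> rcases y with _ | y <;> rcases z with _ | z <;>
    simp only [TT] <;> first
      | exact Iff.rfl
      | exact Or.comm
      | exact ⟨T3s_swap23 hs _ _ _, T3s_swap23 hs _ _ _⟩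

lemma TT_diag (x y : Option (I × ZMod 3)) : ¬ TT R δ x x y := by
  have z1 : ∀ a : ZMod 3, a ≠ a + 1 := by decide
  rcases x with _ | x <;> rcases y with _ | y <;> simp only [TT, not_false_eq_true]
  · rintro (h | h) <;> exact z1 _ h.1
  · rintro (h | h | h | h)
    · exact h.2.1 rfl
    · have h1 := h.1; have h3 := h.2.2.1; rw [← h1] at *; exact z1 _ h3
    · have h1 := h.1; have h3 := h.2.2.1; rw [h1] at h3; exact z1 _ h3
    · exact h.2.2.2.1 rfl

lemma unique_same (h1 : ∀ i j, ∃! k, R i j k) (x y : I × ZMod 3) (hl : x.2 = y.2)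
    (hne : x.1 ≠ y.1) : ∃! z, TT R δ (some x) (some y) z := by
  have z1 : ∀ a : ZMod 3, a ≠ a + 1 := by decide
  obtain ⟨k, hk, hu⟩ := h1 x.1 y.1
  refine ⟨some (k, x.2 + 1), Or.inl ⟨hl, hne, rfl, hk⟩, ?_⟩
  rintro (_ | w) hw
  · simp only [TT] at hw
    rcases hw with h | h
    · have := h.1; rw [hl] at this; exact absurd this (z1 _)
    · have := h.1; rw [hl] at this; exact absurd this (z1 _)
  · simp only [TT] at hw
    rcases hw with h | h | h | h
    · have e1 : w.1 = k := hu _ h.2.2.2
      have e2 : w.2 = x.2 + 1 := h.2.2.1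
      rw [← e1, ← e2]
    · have := h.2.2.1; rw [hl] at this; exact absurd this (z1 _)
    · have e3 := h.2.2.1; rw [h.1, hl] at e3; exact absurd e3 (z1 _)
    · exact absurd hl h.2.2.2.1

lemma unique_succ (hs : ∀ i j k, R i j k → R j i k) (h1 : ∀ i j, ∃! k, R i j k)
    (h2 : ∀ i k, ∃! j, R i j k) (hδ : ∀ i, R i i (δ i)) (x y : I × ZMod 3) (hl : y.2 = x.2 + 1) :
    ∃! z, TT R δ (some x) (some y) z := by
  have z1 : ∀ a : ZMod 3, a ≠ a + 1 := by decide
  have z2 : ∀ a : ZMod 3, a ≠ a + 1 + 1 := by decide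
  have z3 : ∀ a c : ZMod 3, a ≠ c → a + 1 ≠ c → c = a + 2 := by decide
  have z4 : ∀ a : ZMod 3, a ≠ a + 2 := by decide
  have z5 : ∀ a : ZMod 3, a + 1 ≠ a + 2 := by decide
  obtain ⟨j, hj, hu⟩ := h2 x.1 y.1
  -- common exclusions
  have exI : ¬ Inf δ y x := by
    intro h; have := h.1; rw [hl] at this; exact z2 _ this
  have ex1 : ∀ w, ¬ PP R x y w := by
    intro w h; have := h.1; rw [hl] at this; exact z1 _ this
  have ex2 : ∀ w, ¬ PP R y w x := by
    intro w h; have := h.2.2.1; rw [hl] at this; exact z2 _ this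
  by_cases hjx : j = x.1
  · have hy : y.1 = δ x.1 := by
      rw [hjx] at hj
      exact (h1 x.1 x.1).unique hj (hδ x.1)
    have ex3 : ∀ w, ¬ PP R w x y := by
      intro w h
      exact h.2.1 ((hu _ (hs _ _ _ h.2.2.2)).trans hjx)
    by_cases hd : δ x.1 = x.1
    · refine ⟨some (x.1, x.2 + 2), ?_, ?_⟩
      · refine Or.inr (Or.inr (Or.inr ⟨?_, ?_, hd, ?_, ?_, ?_⟩))
        · rw [hy, hd]
        · rw [hy, hd]
        · rw [hl]; exact z1 _
        · rw [hl]; exact z5 _
        · exact z4 _
      · rintro (_ | w) hw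
        · simp only [TT] at hw
          rcases hw with h | h
          · exact absurd hd h.2.2
          · exact absurd h exI
        · simp only [TT] at hw
          rcases hw with h | h | h | h
          · exact absurd h (ex1 w)
          · exact absurd h (ex2 w)
          · exact absurd h (ex3 w)
          · obtain ⟨a, b, _, _, e, f⟩ := h
            rw [hl] at e
            have e2 := z3 _ _ f e
            have e1 : w.1 = x.1 := (a.trans b).symm
            rw [← e1, ← e2]
    · refine ⟨none, Or.inl ⟨hl, hy, hd⟩, ?_⟩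
      rintro (_ | w) hw
      · rfl
      · simp only [TT] at hw
        rcases hw with h | h | h | h
        · exact absurd h (ex1 w)
        · exact absurd h (ex2 w)
        · exact absurd h (ex3 w)
        · exact absurd h.2.2.1 hd
  · have hny : ¬ (y.1 = δ x.1) := by
      intro h
      have h3 := hδ x.1
      rw [← h] at h3
      exact hjx (hu _ h3).symm
    refine ⟨some (j, x.2), Or.inr (Or.inr (Or.inl ⟨rfl, hjx, hl, hs _ _ _ hj⟩)), ?_⟩
    rintro (_ | w) hw
    · simp only [TT] at hw
      rcases hw with h | h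
      · exact absurd h.2.1 hny
      · exact absurd h exI
    · simp only [TT] at hw
      rcases hw with h | h | h | h
      · exact absurd h (ex1 w)
      · exact absurd h (ex2 w)
      · have e1 : w.1 = j := hu _ (hs _ _ _ h.2.2.2)
        have e2 : w.2 = x.2 := h.1
        rw [← e1, ← e2]
      · exact absurd (by rw [h.2.2.1]; exact h.1.symm) hny

lemma unique_pair (hs : ∀ i j k, R i j k → R j i k) (h1 : ∀ i j, ∃! k, R i j k)
    (h2 : ∀ i k, ∃! j, R i j k) (hδ : ∀ i, R i i (δ i)) (x y : I × ZMod 3) (hxy : x ≠ y) :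
    ∃! z, TT R δ (some x) (some y) z := by
  have z0 : ∀ a b : ZMod 3, a = b ∨ b = a + 1 ∨ a = b + 1 := by decide
  rcases z0 x.2 y.2 with h | h | h
  · apply unique_same h1 x y h
    intro h3
    exact hxy (Prod.ext h3 h)
  · exact unique_succ hs h1 h2 hδ x y h
  · have := unique_succ hs h1 h2 hδ y x h
    simpa only [TT_swap12 hs (some y) (some x)] using this

lemma unique_inf (hB : ∀ i, δ i ≠ i → δ (δ i) = δ i)
    (hA : ∀ k, δ k = k → ∃! i, δ i = k ∧ δ i ≠ i) (x : I × ZMod 3) :
    ∃! z, TT R δ none (some x) z := by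
  have z6 : ∀ a : ZMod 3, a = a - 1 + 1 := by decide
  have z7 : ∀ a b : ZMod 3, a = b + 1 → b = a - 1 := by decide
  by_cases hd : δ x.1 = x.1
  · obtain ⟨i, ⟨hi1, hi2⟩, hu⟩ := hA x.1 hd
    refine ⟨some (i, x.2 - 1), Or.inr ⟨z6 _, hi1.symm, hi2⟩, ?_⟩
    rintro (_ | w) hw
    · simp only [TT] at hw
    · simp only [TT] at hw
      rcases hw with h | h
      · exact absurd hd h.2.2
      · have e1 : w.1 = i := hu _ ⟨h.2.1.symm, h.2.2⟩
        have e2 : w.2 = x.2 - 1 := z7 _ _ h.1
        rw [← e1, ← e2]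
  · refine ⟨some (δ x.1, x.2 + 1), Or.inl ⟨rfl, rfl, hd⟩, ?_⟩
    rintro (_ | w) hw
    · simp only [TT] at hw
    · simp only [TT] at hw
      rcases hw with h | h
      · have e1 : w.1 = δ x.1 := h.2.1
        have e2 : w.2 = x.2 + 1 := h.1
        rw [← e1, ← e2]
      · exact absurd (by rw [h.2.1]; exact hB _ h.2.2) hd

theorem good_skolem [Fintype I] (hs : ∀ i j k, R i j k → R j i k) (h1 : ∀ i j, ∃! k, R i j k)
    (h2 : ∀ i k, ∃! j, R i j k) (hδ : ∀ i, R i i (δ i)) (hB : ∀ i, δ i ≠ i → δ (δ i) = δ i)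
    (hA : ∀ k, δ k = k → ∃! i, δ i = k ∧ δ i ≠ i) : Good (Option (I × ZMod 3)) 1 := by
  classical
  refine ⟨fun x y z => if TT R δ x y z then 1 else 0, ⟨?_, ?_, ?_, ?_⟩, ?_⟩
  · intro x y z; split_ifs <;> norm_num
  · intro x y z; simp only [TT_swap12 hs x y z]
  · intro x y z; simp only [TT_swap23 hs x y z]
  · intro x y; rw [if_neg (TT_diag x y)]
  · intro x y hxy
    refine ⟨0, by norm_num, ?_⟩
    rw [mul_zero, add_zero]
    apply sum_unique
    rcases x with _ | x <;> rcases y with _ | y
    · exact absurd rfl hxy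
    · exact unique_inf hB hA y
    · have := unique_inf (R := R) hB hA x
      simpa only [TT_swap12 hs none (some x)] using this
    · exact unique_pair hs h1 h2 hδ x y (fun h => hxy (by rw [h]))

theorem good_bose [Fintype I] (hs : ∀ i j k, R i j k → R j i k) (h1 : ∀ i j, ∃! k, R i j k)
    (h2 : ∀ i k, ∃! j, R i j k) (hδ : ∀ i, R i i i) : Good (I × ZMod 3) 1 := by
  classical
  refine ⟨fun x y z => if TT R id (some x) (some y) (some z) then 1 else 0, ⟨?_, ?_, ?_, ?_⟩, ?_⟩
  · intro x y z; split_ifs <;> norm_num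
  · intro x y z; simp only [TT_swap12 hs (some x) (some y) (some z)]
  · intro x y z; simp only [TT_swap23 hs (some x) (some y) (some z)]
  · intro x y; rw [if_neg (TT_diag (some x) (some y))]
  · intro x y hxy
    refine ⟨0, by norm_num, ?_⟩
    rw [mul_zero, add_zero]
    apply sum_unique
    obtain ⟨z, hz, hu⟩ := unique_pair (δ := id) hs h1 h2 hδ x y hxy
    rcases z with _ | z
    · simp only [TT] at hz
      rcases hz with h | h
      · exact absurd rfl h.2.2
      · exact absurd rfl h.2.2
    · refine ⟨z, hz, ?_⟩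
      intro w hw
      exact Option.some_injective _ (hu (some w) hw)

end

/-- `k` is half of `i + j` modulo the odd number `m = 2t + 1` -/
def RB (t : ℕ) (i j k : Fin (2 * t + 1)) : Prop :=
  2 * k.val = i.val + j.val ∨ 2 * k.val = i.val + j.val + (2 * t + 1) ∨
    2 * k.val + (2 * t + 1) = i.val + j.val

theorem good_one_bose (t : ℕ) : Good (Fin (2 * t + 1) × ZMod 3) 1 := by
  apply good_bose (R := RB t)
  · intro i j k h
    unfold RB at *
    omega
  · intro i j
    have hi := i.2
    have hj := j.2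
    have hex : ∃ k, k < 2 * t + 1 ∧ (2 * k = i.val + j.val ∨ 2 * k = i.val + j.val + (2 * t + 1) ∨
        2 * k + (2 * t + 1) = i.val + j.val) := by
      by_cases h : (i.val + j.val) % 2 = 0
      · exact ⟨(i.val + j.val) / 2, by omega, by omega⟩
      · by_cases h' : i.val + j.val < 2 * t + 1
        · exact ⟨(i.val + j.val + (2 * t + 1)) / 2, by omega, by omega⟩
        · exact ⟨(i.val + j.val - (2 * t + 1)) / 2, by omega, by omega⟩
    obtain ⟨k, hk, hR⟩ := hex
    refine ⟨⟨k, hk⟩, hR, ?_⟩
    intro k' hk'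
    have h3 := k'.2
    apply Fin.ext
    unfold RB at hk'
    simp only at *
    omega
  · intro i k
    have hi := i.2
    have hk := k.2
    have hex : ∃ j, j < 2 * t + 1 ∧ (2 * k.val = i.val + j ∨ 2 * k.val = i.val + j + (2 * t + 1) ∨
        2 * k.val + (2 * t + 1) = i.val + j) := by
      by_cases h : 2 * k.val < i.val
      · exact ⟨2 * k.val + (2 * t + 1) - i.val, by omega, by omega⟩
      · by_cases h' : 2 * k.val - i.val < 2 * t + 1
        · exact ⟨2 * k.val - i.val, by omega, by omega⟩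
        · exact ⟨2 * k.val - i.val - (2 * t + 1), by omega, by omega⟩
    obtain ⟨j, hj, hR⟩ := hex
    refine ⟨⟨j, hj⟩, hR, ?_⟩
    intro j' hj'
    have h3 := j'.2
    apply Fin.ext
    unfold RB at hj'
    simp only at *
    omega
  · intro i
    unfold RB
    omega

/-- the half-idempotent commutative quasigroup of order `2t` -/
def RS (t : ℕ) (i j k : Fin (2 * t)) : Prop :=
  (k.val < t ∧ (2 * k.val = i.val + j.val ∨ 2 * k.val + 2 * t = i.val + j.val)) ∨
    (t ≤ k.val ∧ (2 * k.val + 1 = i.val + j.val + 2 * t ∨ 2 * k.val + 1 = i.val + j.val))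

def dS (t : ℕ) (i : Fin (2 * t)) : Fin (2 * t) :=
  if h : i.val < t then i else ⟨i.val - t, by have := i.2; omega⟩

theorem good_one_skolem (t : ℕ) : Good (Option (Fin (2 * t) × ZMod 3)) 1 := by
  apply good_skolem (R := RS t) (δ := dS t)
  · intro i j k h
    unfold RS at *
    omega
  · intro i j
    have hi := i.2
    have hj := j.2
    have hex : ∃ k, k < 2 * t ∧ ((k < t ∧ (2 * k = i.val + j.val ∨ 2 * k + 2 * t = i.val + j.val)) ∨
      (t ≤ k ∧ (2 * k + 1 = i.val + j.val + 2 * t ∨ 2 * k + 1 = i.val + j.val))) := by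
      by_cases h : (i.val + j.val) % 2 = 0
      · by_cases h' : i.val + j.val < 2 * t
        · exact ⟨(i.val + j.val) / 2, by omega, by omega⟩
        · exact ⟨(i.val + j.val - 2 * t) / 2, by omega, by omega⟩
      · by_cases h' : i.val + j.val < 2 * t
        · exact ⟨(i.val + j.val + 2 * t - 1) / 2, by omega, by omega⟩
        · exact ⟨(i.val + j.val - 1) / 2, by omega, by omega⟩
    obtain ⟨k, hk, hR⟩ := hex
    refine ⟨⟨k, hk⟩, hR, ?_⟩
    intro k' hk'
    have h3 := k'.2
    apply Fin.ext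
    unfold RS at hk'
    simp only at *
    omega
  · intro i k
    have hi := i.2
    have hk := k.2
    have hex : ∃ j, j < 2 * t ∧ ((k.val < t ∧ (2 * k.val = i.val + j ∨ 2 * k.val + 2 * t = i.val + j)) ∨
      (t ≤ k.val ∧ (2 * k.val + 1 = i.val + j + 2 * t ∨ 2 * k.val + 1 = i.val + j))) := by
      by_cases h : k.val < t
      · by_cases h' : i.val ≤ 2 * k.val
        · exact ⟨2 * k.val - i.val, by omega, by omega⟩
        · exact ⟨2 * k.val + 2 * t - i.val, by omega, by omega⟩
      · by_cases h' : i.val ≤ 2 * k.val + 1 - 2 * t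
        · exact ⟨2 * k.val + 1 - 2 * t - i.val, by omega, by omega⟩
        · exact ⟨2 * k.val + 1 - i.val, by omega, by omega⟩
    obtain ⟨j, hj, hR⟩ := hex
    refine ⟨⟨j, hj⟩, hR, ?_⟩
    intro j' hj'
    have h3 := j'.2
    apply Fin.ext
    unfold RS at hj'
    simp only at *
    omega
  · intro i
    have hi := i.2
    unfold RS dS
    split_ifs with h
    · left; omega
    · left; simp only; omega
  · intro i
    have hi := i.2
    intro h
    by_cases h1 : i.val < t
    · exact absurd (by unfold dS; rw [dif_pos h1]) h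
    · have e1 : dS t i = ⟨i.val - t, by omega⟩ := by unfold dS; rw [dif_neg h1]
      rw [e1]
      have h2 : (⟨i.val - t, by omega⟩ : Fin (2 * t)).val < t := by simp only; omega
      unfold dS
      rw [dif_pos h2]
  · intro k hk
    have hk2 := k.2
    have hkt : k.val < t := by
      by_contra h
      unfold dS at hk
      rw [dif_neg h] at hk
      have := congrArg Fin.val hk
      simp only at this
      omega
    refine ⟨⟨k.val + t, by omega⟩, ?_, ?_⟩
    · unfold dS
      have h1 : ¬ (k.val + t < t) := by omega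
      simp only [h1, dite_false]
      constructor
      · apply Fin.ext; simp
      · intro h
        have := congrArg Fin.val h
        simp only at this
        omega
    · rintro i ⟨h1, h2⟩
      unfold dS at h1 h2
      by_cases h3 : i.val < t
      · rw [dif_pos h3] at h2; exact absurd rfl h2
      · rw [dif_neg h3] at h1
        have := congrArg Fin.val h1
        simp only at this
        apply Fin.ext
        simp only
        omega

end Pool.Agent.Lib.MP_588841_co
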