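import Pool.Agent.Lib.MP_588841_co.Odd
import Pool.Agent.Lib.MP_588841_co.Sts

/-! Existence and necessary conditions for the ternary systems. -/

set_option autoImplicit false

namespace Pool.Agent.Lib.MP_588841_co

open Finset

lemma good_one (v : ℕ) (hv : 2 ≤ v) (h : v % 6 = 1 ∨ v % 6 = 3) : Good (Fin v) 1 := by
  rcases h with h | h
  · obtain ⟨t, rfl⟩ : ∃ t, v = 6 * t + 1 := ⟨v / 6, by omega⟩
    apply good_of_card _ 1 (good_one_skolem t)
    simp [ZMod.card]; ring
  · obtain ⟨t, rfl⟩ : ∃ t, v = 6 * t + 3 := ⟨v / 6, by omega⟩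
    apply good_of_card _ 1 (good_one_bose t)
    simp [ZMod.card]; ring

lemma window_add (lam n : ℕ) (h : Window lam n) : Window (lam + 1) (n + 1) := by
  obtain ⟨m, hm, h⟩ := h
  exact ⟨m, hm, by omega⟩

lemma good_odd_half (v lam : ℕ) (hv : v % 2 = 1) (hv2 : 2 ≤ v) (hl : 2 * lam ≤ v + 1)
    (h1 : lam = 1 → v % 6 = 1 ∨ v % 6 = 3) : Good (Fin v) lam := by
  by_cases h0 : lam = 0 ∨ lam = 2 ∨ lam = 4
  · exact good_zero _ _ h0
  by_cases e1 : lam = 1
  · rw [e1]; exact good_one v hv2 (h1 e1)
  by_cases e3 : lam = 3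
  · have : NeZero v := ⟨by omega⟩
    rw [e3]
    apply good_of_card _ 3 (good_three v hv)
    simp [ZMod.card]
  -- now lam ≥ 5
  obtain ⟨h, c, hh, hc, hvv⟩ : ∃ h c, 0 < h ∧ (c = 1 ∨ c = 2) ∧ v = 4 * h + 2 * c + 1 := by
    by_cases h4 : v % 4 = 3
    · exact ⟨(v - 3) / 4, 1, by omega, Or.inl rfl, by omega⟩
    · exact ⟨(v - 5) / 4, 2, by omega, Or.inr rfl, by omega⟩
  subst hvv
  by_cases hpar : lam % 2 = 0
  · obtain ⟨e, rfl⟩ : ∃ e, lam = 2 * e + 4 := ⟨(lam - 4) / 2, by omega⟩
    apply good_glue_odd h c hh hc 0 e e (2 * e + 4) (2 * e + 4) (by norm_num) (by omega) (by omega)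
    · exact good_even _ _ (by omega) (by omega) (by omega) (by omega)
    · intro n hn; simpa using hn
    · intro n _; exact ⟨2, le_refl _, by ring⟩
    · intro n _; exact ⟨2, le_refl _, by ring⟩
    · intro n hn
      apply window_of
      rcases hn with rfl | rfl <;> rcases hc with rfl | rfl <;> omega
  · obtain ⟨e, rfl⟩ : ∃ e, lam = 2 * e + 5 := ⟨(lam - 5) / 2, by omega⟩
    apply good_glue_odd h c hh hc 1 e (e + 1) (2 * e + 4) (2 * e + 5) (by norm_num) (by omega)
      (by omega)
    · exact good_even _ _ (by omega) (by omega) (by omega) (by omega)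
    · intro n hn; exact window_add _ _ hn
    · intro n hn; apply window_of; omega
    · intro n hn; apply window_of; omega
    · intro n hn
      apply window_of
      rcases hn with rfl | rfl <;> rcases hc with rfl | rfl <;> omega

theorem good_exists (v lam : ℕ) (hv2 : 2 ≤ v) (hle : lam ≤ v + 2) (hpar : Even (lam * (v - 1)))
    (h6 : lam = 1 ∨ lam = v + 1 → v % 6 = 1 ∨ v % 6 = 3) : Good (Fin v) lam := by
  by_cases hv : v % 2 = 0
  · have : lam % 2 = 0 := by
      rw [Nat.even_mul] at hpar
      rcases hpar with h | h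
      · exact Nat.even_iff.mp h
      · rw [Nat.even_iff] at h; omega
    exact good_even v lam hv hv2 this hle
  · have hv : v % 2 = 1 := by omega
    by_cases hh : 2 * lam ≤ v + 1
    · exact good_odd_half v lam hv hv2 hh (fun e => h6 (Or.inl e))
    · have hz : Good (Fin v) (v + 2 - lam) := by
        apply good_odd_half v _ hv hv2 (by omega)
        intro e; exact h6 (Or.inr (by omega))
      have := good_compl (V := Fin v) (v + 2 - lam) (by simp) hz
      have e : Fintype.card (Fin v) + 2 - (v + 2 - lam) = lam := by simp; omega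
      rwa [e] at this

/-! ### necessary conditions -/

lemma dvd_of_free {α : Type} [Fintype α] (p : ℕ) [Fact p.Prime] (σ : Equiv.Perm α)
    (hσ : σ ^ p = 1) (hfix : ∀ x, σ x ≠ x) : p ∣ Fintype.card α := by
  by_contra h
  obtain ⟨a, ha⟩ := Equiv.Perm.exists_fixed_point_of_prime (n := 1) h (by rw [pow_one]; exact hσ)
  exact hfix a ha

variable {V : Type} [Fintype V]

lemma even_row (t : V → V → V → ℕ) (ht : Sys t) (x : V) : Even (∑ y, ∑ z, t x y z) := by
  classical
  have h1 : ((∑ y, ∑ z, t x y z : ℕ) : ZMod 2) = 0 := by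
    rw [← Fintype.sum_prod_type']
    push_cast
    apply Finset.sum_involution (fun (p : V × V) _ => (p.2, p.1))
    · intro p _
      rw [ht.swap23 x p.2 p.1]
      exact CharTwo.add_self_eq_zero _
    · intro p _ hp h
      apply hp
      have : p.1 = p.2 := (congrArg Prod.snd h)
      rw [this, ht.diag23]; simp
    · intro p _; exact mem_univ _
    · intro p _; rfl
  rw [ZMod.natCast_eq_zero_iff] at h1
  exact even_iff_two_dvd.mpr h1

lemma three_dvd (t : V → V → V → ℕ) (ht : Sys t) : 3 ∣ ∑ x, ∑ y, ∑ z, t x y z := by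
  classical
  let S := {p : V × V × V // t p.1 p.2.1 p.2.2 = 1}
  have h1 : ∑ x, ∑ y, ∑ z, t x y z = Fintype.card S := by
    rw [Fintype.card_subtype, card_filter, Fintype.sum_prod_type]
    apply sum_congr rfl
    intro x _
    rw [Fintype.sum_prod_type]
    apply sum_congr rfl
    intro y _
    apply sum_congr rfl
    intro z _
    have := ht.le_one x y z
    dsimp only
    split_ifs <;> omega
  rw [h1]
  have hrot : ∀ x y z, t y z x = t x y z := by
    intro x y z
    rw [ht.swap23 y z x, ht.swap12 y x z]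
  have : Fact (Nat.Prime 3) := ⟨Nat.prime_three⟩
  let σ : Equiv.Perm S :=
    { toFun := fun p => ⟨(p.1.2.1, p.1.2.2, p.1.1), by
        have := p.2; rw [← hrot] at this; exact this⟩
      invFun := fun p => ⟨(p.1.2.2, p.1.1, p.1.2.1), by
        have := p.2; rw [← hrot, ← hrot] at this; exact this⟩
      left_inv := fun p => rfl
      right_inv := fun p => rfl }
  apply dvd_of_free 3 σ
  · ext p <;> rfl
  · rintro ⟨⟨x, y, z⟩, hp⟩ h
    have h2 := congrArg (fun q : S => q.1.1) h
    have h3 : y = x := h2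
    simp only at hp
    rw [h3, ht.diag] at hp
    exact absurd hp (by norm_num)

lemma good_le (lam : ℕ) (h : Good V lam) (hc : 2 ≤ Fintype.card V) :
    lam ≤ Fintype.card V + 2 := by
  classical
  obtain ⟨t, ht, hw⟩ := h
  obtain ⟨x, y, hxy⟩ := Fintype.exists_pair_of_one_lt_card (by omega : 1 < Fintype.card V)
  obtain ⟨m, hm, hs⟩ := hw x y hxy
  have h1 := sum_distinct x y hxy
  have h2 : ∑ z, t x y z ≤ ∑ z, if x ≠ y ∧ y ≠ z ∧ x ≠ z then 1 else 0 := by
    apply sum_le_sum
    intro z _
    split_ifs with h3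
    · exact ht.le_one _ _ _
    · by_cases h4 : y = z
      · subst h4; rw [ht.diag23]
      · by_cases h5 : x = z
        · subst h5; rw [ht.diag13]
        · exact absurd ⟨hxy, h4, h5⟩ h3
  omega

lemma good_parity (lam : ℕ) (h : Good V lam) (hc : 2 ≤ Fintype.card V) :
    Even (lam * (Fintype.card V - 1)) := by
  classical
  obtain ⟨t, ht, hw⟩ := h
  obtain ⟨x, -, -⟩ := Fintype.exists_pair_of_one_lt_card (by omega : 1 < Fintype.card V)
  choose! m hm hs using hw x
  have h1 : ∑ y ∈ univ.erase x, (∑ z, t x y z + 2 * m y) = lam * (Fintype.card V - 1) := by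
    rw [Finset.sum_congr rfl (fun y hy => hs y (ne_of_mem_erase hy).symm), sum_const,
      card_erase_of_mem (mem_univ x), card_univ, smul_eq_mul, mul_comm]
  have h2 : ∑ y ∈ univ.erase x, ∑ z, t x y z = ∑ y, ∑ z, t x y z := by
    rw [← add_sum_erase univ (fun y => ∑ z, t x y z) (mem_univ x)]
    have : ∑ z, t x x z = 0 := by
      apply sum_eq_zero; intro z _; exact ht.diag x z
    rw [this, zero_add]
  rw [← h1, sum_add_distrib, h2, ← mul_sum]
  exact (even_row t ht x).add (even_two_mul _)

lemma good_one_mod (h : Good V 1) (hc : 2 ≤ Fintype.card V) :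
    Fintype.card V % 6 = 1 ∨ Fintype.card V % 6 = 3 := by
  classical
  have hp := good_parity 1 h hc
  obtain ⟨t, ht, hw⟩ := h
  have h3 := three_dvd t ht
  have h1 : ∑ x, ∑ y, ∑ z, t x y z = Fintype.card V * (Fintype.card V - 1) := by
    have h4 : ∀ x, ∑ y, ∑ z, t x y z = Fintype.card V - 1 := by
      intro x
      rw [← add_sum_erase univ (fun y => ∑ z, t x y z) (mem_univ x)]
      have h5 : ∑ z, t x x z = 0 := by
        apply sum_eq_zero; intro z _; exact ht.diag x z
      rw [h5, zero_add]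
      have h6 : ∀ y ∈ univ.erase x, ∑ z, t x y z = 1 := by
        intro y hy
        obtain ⟨m, hm, hs⟩ := hw x y (ne_of_mem_erase hy).symm
        omega
      rw [Finset.sum_congr rfl h6, sum_const, card_erase_of_mem (mem_univ x), card_univ]
      simp
    rw [Finset.sum_congr rfl (fun x _ => h4 x), sum_const, card_univ, smul_eq_mul]
  rw [h1] at h3
  rw [one_mul, Nat.even_iff] at hp
  set v := Fintype.card V with hv
  have h7 : v % 3 = 0 ∨ (v - 1) % 3 = 0 := by
    rcases (Nat.Prime.dvd_mul Nat.prime_three).mp h3 with h | h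
    · left; omega
    · right; omega
  omega

theorem good_iff (v lam : ℕ) (hv2 : 2 ≤ v) : Good (Fin v) lam ↔
    lam ≤ v + 2 ∧ Even (lam * (v - 1)) ∧ (lam = 1 ∨ lam = v + 1 → v % 6 = 1 ∨ v % 6 = 3) := by
  constructor
  · intro h
    have hc : 2 ≤ Fintype.card (Fin v) := by simpa using hv2
    have h1 := good_le lam h hc
    have h2 := good_parity lam h hc
    rw [Fintype.card_fin] at h1 h2
    refine ⟨h1, h2, ?_⟩
    rintro (rfl | rfl)
    · have := good_one_mod h hc
      rwa [Fintype.card_fin] at this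
    · have h3 := good_compl (V := Fin v) (v + 1) (by simp) h
      have e : Fintype.card (Fin v) + 2 - (v + 1) = 1 := by rw [Fintype.card_fin]; omega
      rw [e] at h3
      have := good_one_mod h3 hc
      rwa [Fintype.card_fin] at this
  · rintro ⟨h1, h2, h3⟩
    exact good_exists v lam hv2 h1 h2 h3

end Pool.Agent.Lib.MP_588841_co
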