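import Pool.Agent.Lib.MP_588841_co.Even2

/-! The construction on an odd number of points. -/

set_option autoImplicit false

namespace Pool.Agent.Lib.MP_588841_co

open Finset

/-- colour classes of the standard one-factorization of the complete graph on `m + 1` points -/
def col (m : ℕ) : Option (ZMod m) → Option (ZMod m) → ZMod m
  | none, none => 0
  | none, some b => 2 * b
  | some a, none => 2 * a
  | some a, some b => a + b

lemma col_symm (m : ℕ) (x y : Option (ZMod m)) : col m x y = col m y x := by
  cases x <;> cases y <;> simp [col, add_comm]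

lemma sum_col (m : ℕ) [NeZero m] (hm : Nat.Coprime 2 m) (F : ZMod m → ℕ) (x : Option (ZMod m)) :
    ∑ x', (if x ≠ x' then F (col m x x') else 0) = ∑ j, F j := by
  rw [Fintype.sum_option]
  cases x with
  | none =>
    simp only [ne_eq, not_true_eq_false, if_false, zero_add, reduceCtorEq, not_false_eq_true,
      if_true, col]
    have h5 : ∀ d : ZMod m, 2 * d = (Units.mulLeft (ZMod.unitOfCoprime 2 hm)) d := by
      intro d
      simp [ZMod.coe_unitOfCoprime]
    simp only [h5]
    exact Equiv.sum_comp (Units.mulLeft (ZMod.unitOfCoprime 2 hm)) F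
  | some a =>
    simp only [ne_eq, reduceCtorEq, not_false_eq_true, if_true, col, Option.some.injEq]
    have h1 : ∑ j, F j = ∑ b, F (a + b) := (Equiv.sum_comp (Equiv.addLeft a) F).symm
    rw [h1]
    have h2 : ∀ b, F (a + b) = (if b = a then F (2 * a) else 0) + (if ¬ a = b then F (a + b) else 0) := by
      intro b
      by_cases h : a = b
      · subst h; simp [two_mul]
      · have h' : ¬ b = a := fun e => h e.symm
        simp [h, h']
    rw [Finset.sum_congr rfl (fun b _ => h2 b), sum_add_distrib]
    simp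

section

variable (h c : ℕ)

/-- the map from colours to points of `Y` -/
def phi (j : ZMod (2 * h + 2 * c - 1)) : ZMod (2 * h + 1) := ((min j.val (2 * h) : ℕ) : ZMod (2 * h + 1))

lemma phi_fibre (hh : 0 < h) (hc : c = 1 ∨ c = 2) (y : ZMod (2 * h + 1))
    [NeZero (2 * h + 2 * c - 1)] :
    (∑ j, if phi h c j = y then 1 else 0) = 1 ∨ (∑ j, if phi h c j = y then 1 else 0) = 3 := by
  have hy := ZMod.val_lt y
  have e1 : ∀ j : ZMod (2 * h + 2 * c - 1), phi h c j = y ↔ min j.val (2 * h) = y.val := by
    intro j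
    unfold phi
    constructor
    · intro h1
      rw [← h1, ZMod.val_natCast, Nat.mod_eq_of_lt (by omega)]
    · intro h1
      rw [h1, ZMod.natCast_zmod_val]
  simp only [e1]
  rw [sum_zmod]
  have e2 : ∀ i ∈ range (2 * h + 2 * c - 1), (if min (i : ZMod (2 * h + 2 * c - 1)).val (2 * h) = y.val
      then 1 else 0) = if min i (2 * h) = y.val then 1 else 0 := by
    intro i hi
    rw [ZMod.val_cast_of_lt (mem_range.mp hi)]
  rw [Finset.sum_congr rfl e2, ← card_filter]
  by_cases hy2 : y.val < 2 * h
  · left
    have : (range (2 * h + 2 * c - 1)).filter (fun i => min i (2 * h) = y.val) = {y.val} := by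
      ext i
      simp only [mem_filter, mem_range, mem_singleton]
      omega
    rw [this]; simp
  · have : (range (2 * h + 2 * c - 1)).filter (fun i => min i (2 * h) = y.val)
        = Ico (2 * h) (2 * h + 2 * c - 1) := by
      ext i
      simp only [mem_filter, mem_range, mem_Ico]
      omega
    rw [this]
    rcases hc with hc | hc
    · left; simp; omega
    · right; simp; omega

/-- difference classes -/
def cls (d : ZMod (2 * h + 1)) : ZMod h :=
  if d.val ≤ h then ((d.val - 1 : ℕ) : ZMod h) else ((2 * h - d.val : ℕ) : ZMod h)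

lemma cls_neg (d : ZMod (2 * h + 1)) (hd : d ≠ 0) : cls h (-d) = cls h d := by
  unfold cls
  have hlt := ZMod.val_lt d
  have hpos : 0 < d.val := Nat.pos_of_ne_zero (fun h => hd ((ZMod.val_eq_zero _).mp h))
  rw [ZMod.neg_val, if_neg hd]
  by_cases h1 : d.val ≤ h
  · have h2 : ¬ (2 * h + 1 - d.val ≤ h) := by omega
    rw [if_pos h1, if_neg h2]
    congr 1; omega
  · have h2 : 2 * h + 1 - d.val ≤ h := by omega
    rw [if_neg h1, if_pos h2]
    congr 1; omega

lemma count_lt [NeZero h] (e : ℕ) (he : e ≤ h) : (∑ u : ZMod h, if u.val < e then 1 else 0) = e := by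
  rw [sum_zmod]
  have e2 : ∀ i ∈ range h, (if (i : ZMod h).val < e then 1 else 0) = if i < e then 1 else 0 := by
    intro i hi
    rw [ZMod.val_cast_of_lt (mem_range.mp hi)]
  rw [Finset.sum_congr rfl e2, ← card_filter]
  have : (range h).filter (fun i => i < e) = range e := by
    ext i
    simp only [mem_filter, mem_range]
    omega
  rw [this]; simp

lemma count_right [NeZero h] (e : ℕ) (he : e ≤ h) (i : ZMod h) :
    (∑ u : ZMod h, if (u - i).val < e then 1 else 0) = e := by
  exact (Equiv.sum_comp (Equiv.subRight i) (fun u : ZMod h => if u.val < e then 1 else 0)).trans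
    (count_lt h e he)

lemma count_left [NeZero h] (e : ℕ) (he : e ≤ h) (r : ZMod h) :
    (∑ i : ZMod h, if (r - i).val < e then 1 else 0) = e := by
  exact (Equiv.sum_comp (Equiv.subLeft r) (fun u : ZMod h => if u.val < e then 1 else 0)).trans
    (count_lt h e he)

/-- the symmetric difference sets -/
def eps (i : ZMod h) (e : ℕ) (d : ZMod (2 * h + 1)) : ℕ :=
  if d = 0 then 0 else if (cls h d - i).val < e then 1 else 0

lemma sum_eps [NeZero h] (i : ZMod h) (e : ℕ) (he : e ≤ h) : ∑ d, eps h i e d = 2 * e := by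
  rw [sum_zmod]
  have e1 : ∀ j ∈ range (2 * h + 1), eps h i e (j : ZMod (2 * h + 1))
      = if j = 0 then 0 else if j ≤ h then (if (((j - 1 : ℕ) : ZMod h) - i).val < e then 1 else 0)
        else (if (((2 * h - j : ℕ) : ZMod h) - i).val < e then 1 else 0) := by
    intro j hj
    unfold eps cls
    have hval : ((j : ZMod (2 * h + 1))).val = j := ZMod.val_cast_of_lt (mem_range.mp hj)
    by_cases h0 : j = 0
    · subst h0; simp
    · have : (j : ZMod (2 * h + 1)) ≠ 0 := by
        intro h1
        rw [h1, ZMod.val_zero] at hval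
        exact h0 hval.symm
      rw [if_neg this, if_neg h0, hval]
      by_cases h1 : j ≤ h
      · rw [if_pos h1, if_pos h1]
      · rw [if_neg h1, if_neg h1]
  rw [Finset.sum_congr rfl e1, sum_range_succ']
  simp only [Nat.succ_ne_zero, if_false, if_true, add_zero, Nat.add_sub_cancel]
  rw [two_mul h, sum_range_add]
  have e2 : (∑ x ∈ range h, if x + 1 ≤ h then (if ((x : ZMod h) - i).val < e then 1 else 0)
        else (if (((h + h - (x + 1) : ℕ) : ZMod h) - i).val < e then 1 else 0)) = e := by
    refine Eq.trans ?_ (count_right h e he i)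
    rw [sum_zmod h (fun u => if (u - i).val < e then 1 else 0)]
    apply sum_congr rfl
    intro x hx
    rw [if_pos (by have := mem_range.mp hx; omega)]
  have e3 : (∑ x ∈ range h, if h + x + 1 ≤ h then (if (((h + x : ℕ) : ZMod h) - i).val < e then 1 else 0)
        else (if (((h + h - (h + x + 1) : ℕ) : ZMod h) - i).val < e then 1 else 0)) = e := by
    refine Eq.trans ?_ (count_right h e he i)
    rw [sum_zmod h (fun u => if (u - i).val < e then 1 else 0)]
    refine Eq.trans ?_ (sum_range_reflect (fun x : ℕ => if ((x : ZMod h) - i).val < e then 1 else 0) h)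
    apply sum_congr rfl
    intro x hx
    rw [if_neg (by omega)]
    have : h + h - (h + x + 1) = h - 1 - x := by omega
    rw [this]
  omega

/-- parameters of the points of `X` -/
def par1 : (ZMod h × Bool) ⊕ Fin (2 * c) → ZMod h
  | Sum.inl p => p.1
  | Sum.inr _ => 0

def par2 (e e' : ℕ) : (ZMod h × Bool) ⊕ Fin (2 * c) → ℕ
  | Sum.inl (_, false) => e
  | Sum.inl (_, true) => e'
  | Sum.inr _ => e

lemma sum_par [NeZero h] (e e' : ℕ) (he : e ≤ h) (he' : e' ≤ h) (d : ZMod (2 * h + 1)) (hd : d ≠ 0) :
    ∑ x, eps h (par1 h c x) (par2 h c e e' x) d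
      = e + e' + 2 * c * (if (cls h d).val < e then 1 else 0) := by
  rw [Fintype.sum_sum_type, Fintype.sum_prod_type]
  have A : ∀ i : ZMod h, eps h (par1 h c (Sum.inl (i, false))) (par2 h c e e' (Sum.inl (i, false))) d
      = if (cls h d - i).val < e then 1 else 0 := by
    intro i; change eps h i e d = _; unfold eps; rw [if_neg hd]
  have B : ∀ i : ZMod h, eps h (par1 h c (Sum.inl (i, true))) (par2 h c e e' (Sum.inl (i, true))) d
      = if (cls h d - i).val < e' then 1 else 0 := by
    intro i; change eps h i e' d = _; unfold eps; rw [if_neg hd]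
  have C : ∀ i : Fin (2 * c), eps h (par1 h c (Sum.inr i)) (par2 h c e e' (Sum.inr i)) d
      = if (cls h d).val < e then 1 else 0 := by
    intro i; change eps h 0 e d = _; unfold eps; rw [if_neg hd, sub_zero]
  simp only [Fintype.sum_bool, A, B, C]
  rw [sum_add_distrib, count_left h e he, count_left h e' he']
  simp
  ring

theorem good_glue_odd (hh : 0 < h) (hc : c = 1 ∨ c = 2) (o e e' lamX lam : ℕ) (ho : o ≤ 1)
    (he : e ≤ h) (he' : e' ≤ h) (hX : Good (Fin (2 * h + 2 * c)) lamX)
    (hw : ∀ n, Window lamX n → Window lam (n + o))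
    (h1 : ∀ n, n = 1 ∨ n = 3 → Window lam (o * n + 2 * e))
    (h2 : ∀ n, n = 1 ∨ n = 3 → Window lam (o * n + 2 * e'))
    (h3 : ∀ n, n = 0 ∨ n = 1 → Window lam (e + e' + 2 * c * n)) :
    Good (Fin (4 * h + 2 * c + 1)) lam := by
  classical
  have : NeZero h := ⟨hh.ne'⟩
  have hm0 : 2 * h + 2 * c - 1 ≠ 0 := by omega
  have : NeZero (2 * h + 2 * c - 1) := ⟨hm0⟩
  have hcard1 : Fintype.card (Fin (2 * h + 2 * c)) = Fintype.card ((ZMod h × Bool) ⊕ Fin (2 * c)) := by
    simp [ZMod.card]; ring
  have hcard2 : Fintype.card (((ZMod h × Bool) ⊕ Fin (2 * c)) ⊕ ZMod (2 * h + 1))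
      = Fintype.card (Fin (4 * h + 2 * c + 1)) := by
    simp [ZMod.card]; ring
  have hcard3 : Fintype.card ((ZMod h × Bool) ⊕ Fin (2 * c))
      = Fintype.card (Option (ZMod (2 * h + 2 * c - 1))) := by
    simp [ZMod.card]; omega
  have hcop : Nat.Coprime 2 (2 * h + 2 * c - 1) := by
    rw [Nat.coprime_two_left, Nat.odd_iff]; omega
  let ψ := Fintype.equivOfCardEq hcard3
  obtain ⟨t, ht, htw⟩ := good_of_card hcard1 lamX hX
  set kap : ((ZMod h × Bool) ⊕ Fin (2 * c)) → ((ZMod h × Bool) ⊕ Fin (2 * c)) → ZMod (2 * h + 1) :=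
    fun x x' => phi h c (col _ (ψ x) (ψ x')) with hkap
  have hkapsymm : ∀ x x', kap x x' = kap x' x := by
    intro x x'; simp only [hkap]; rw [col_symm]
  have hdeg : ∀ x y, (∑ x', if x ≠ x' ∧ kap x x' = y then o else 0)
      = o * (∑ j, if phi h c j = y then 1 else 0) := by
    intro x y
    rw [← sum_col _ hcop (fun j => if phi h c j = y then 1 else 0) (ψ x), mul_sum]
    rw [← Equiv.sum_comp ψ]
    apply sum_congr rfl
    intro x' _
    have h5 : (ψ x ≠ ψ x') ↔ x ≠ x' := by
      constructor
      · intro h6 h7; exact h6 (by rw [h7])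
      · intro h6 h7; exact h6 (ψ.injective h7)
    by_cases h6 : x = x'
    · subst h6; simp
    · have h7 : ψ x ≠ ψ x' := h5.mpr h6
      simp only [hkap, ne_eq, h6, not_false_eq_true, true_and, h7, if_true]
      split_ifs <;> simp
  apply good_of_card hcard2
  apply good_glue lam t (fun x x' y => if x ≠ x' ∧ kap x x' = y then o else 0)
    (fun x y y' => eps h (par1 h c x) (par2 h c e e' x) (y' - y)) (fun _ _ _ => 0) ht
  · exact ⟨fun _ _ _ => by norm_num, fun _ _ _ => rfl, fun _ _ _ => rfl, fun _ _ => rfl⟩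
  · intro x x' y; split_ifs
    · exact ho
    · norm_num
  · intro x x' y
    rw [hkapsymm x x']
    have : (x ≠ x') ↔ (x' ≠ x) := ⟨Ne.symm, Ne.symm⟩
    simp only [this]
  · intro x y; simp
  · intro x y y'; unfold eps; split_ifs <;> norm_num
  · intro x y y'
    by_cases hy : y' - y = 0
    · have : y - y' = 0 := by rw [← neg_sub, hy, neg_zero]
      rw [hy, this]
    · unfold eps
      have hy' : y - y' ≠ 0 := by
        intro h6; apply hy; rw [← neg_sub, h6, neg_zero]
      rw [if_neg hy, if_neg hy']
      have : y - y' = -(y' - y) := by ring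
      rw [this, cls_neg h _ hy]
  · intro x y; unfold eps; simp
  · intro x x' hxx
    have e1 : (∑ y : ZMod (2 * h + 1), if x ≠ x' ∧ kap x x' = y then o else 0) = o := by
      simp [hxx]
    rw [e1]
    exact hw _ (htw x x' hxx)
  · intro x y
    have e1 : ∑ z, eps h (par1 h c x) (par2 h c e e' x) (z - y) = 2 * par2 h c e e' x := by
      have h6 : par2 h c e e' x ≤ h := by
        rcases x with ⟨i, b⟩ | x
        · cases b <;> simp [par2, he, he']
        · simp [par2, he]
      rw [← sum_eps h (par1 h c x) _ h6]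
      exact Equiv.sum_comp (Equiv.subRight y)
        (fun u => eps h (par1 h c x) (par2 h c e e' x) u)
    have e2 : (∑ z, if x ≠ z ∧ kap x z = y then o else 0)
        = o * (∑ j, if phi h c j = y then 1 else 0) := hdeg x y
    rw [e1, e2]
    have hf := phi_fibre h c hh hc y
    rcases x with ⟨i, b⟩ | x
    · cases b
      · exact h1 _ hf
      · exact h2 _ hf
    · exact h1 _ hf
  · intro y y' hyy
    have hne : y' - y ≠ 0 := fun h6 => hyy (sub_eq_zero.mp h6).symm
    rw [sum_par h c e e' he he' (y' - y) hne, sum_const_zero, add_zero]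
    apply h3
    split_ifs
    · right; rfl
    · left; rfl

end

end Pool.Agent.Lib.MP_588841_co
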