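import Pool.Agent.Lib.MP_588841_co.Basic

/-! The cases lam = 1 (Steiner triple systems) and lam = 3. -/

set_option autoImplicit false

namespace Pool.Agent.Lib.MP_588841_co

open Finset

lemma sum_unique {V : Type} [Fintype V] (p : V → Prop) [DecidablePred p] (h : ∃! z, p z) :
    (∑ z, if p z then 1 else 0) = 1 := by
  obtain ⟨z, hz, hu⟩ := h
  rw [← card_filter]
  have : univ.filter p = {z} := by
    ext w
    simp only [mem_filter, mem_univ, true_and, mem_singleton]
    exact ⟨hu w, fun e => e ▸ hz⟩
  rw [this]; rfl

section three

variable (v : ℕ)

def T3 (x y z : ZMod v) : Prop :=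
  (x ≠ y ∧ y ≠ z ∧ x ≠ z) ∧ (2 * x + y + z = 0 ∨ x + 2 * y + z = 0 ∨ x + y + 2 * z = 0)

lemma T3_swap12 (x y z : ZMod v) : T3 v x y z ↔ T3 v y x z := by
  unfold T3
  rw [show 2 * y + x + z = x + 2 * y + z by ring, show y + 2 * x + z = 2 * x + y + z by ring,
    show y + x + 2 * z = x + y + 2 * z by ring]
  constructor
  · rintro ⟨⟨a, b, c⟩, d | d | d⟩
    · exact ⟨⟨a.symm, c, b⟩, Or.inr (Or.inl d)⟩
    · exact ⟨⟨a.symm, c, b⟩, Or.inl d⟩
    · exact ⟨⟨a.symm, c, b⟩, Or.inr (Or.inr d)⟩
  · rintro ⟨⟨a, b, c⟩, d | d | d⟩
    · exact ⟨⟨a.symm, c, b⟩, Or.inr (Or.inl d)⟩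
    · exact ⟨⟨a.symm, c, b⟩, Or.inl d⟩
    · exact ⟨⟨a.symm, c, b⟩, Or.inr (Or.inr d)⟩

lemma T3_swap23 (x y z : ZMod v) : T3 v x y z ↔ T3 v x z y := by
  unfold T3
  rw [show 2 * x + z + y = 2 * x + y + z by ring, show x + 2 * z + y = x + y + 2 * z by ring,
    show x + z + 2 * y = x + 2 * y + z by ring]
  constructor
  · rintro ⟨⟨a, b, c⟩, d | d | d⟩
    · exact ⟨⟨c, b.symm, a⟩, Or.inl d⟩
    · exact ⟨⟨c, b.symm, a⟩, Or.inr (Or.inr d)⟩
    · exact ⟨⟨c, b.symm, a⟩, Or.inr (Or.inl d)⟩
  · rintro ⟨⟨a, b, c⟩, d | d | d⟩
    · exact ⟨⟨c, b.symm, a⟩, Or.inl d⟩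
    · exact ⟨⟨c, b.symm, a⟩, Or.inr (Or.inr d)⟩
    · exact ⟨⟨c, b.symm, a⟩, Or.inr (Or.inl d)⟩

lemma half_exists (hv : v % 2 = 1) : ∃ u : ZMod v, 2 * u = 1 := by
  refine ⟨(((v + 1) / 2 : ℕ) : ZMod v), ?_⟩
  have : (2 * (((v + 1) / 2 : ℕ) : ZMod v)) = ((2 * ((v + 1) / 2) : ℕ) : ZMod v) := by
    push_cast; ring
  rw [this, show 2 * ((v + 1) / 2) = v + 1 by omega]
  simp

lemma good_three (hv : v % 2 = 1) [NeZero v] : Good (ZMod v) 3 := by
  classical
  obtain ⟨u, hu⟩ := half_exists v hv
  have can : ∀ a : ZMod v, 2 * a = 0 → a = 0 := by
    intro a ha
    linear_combination u * ha - a * hu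
  refine ⟨fun x y z => if T3 v x y z then 1 else 0, ⟨?_, ?_, ?_, ?_⟩, ?_⟩
  · intro x y z; split_ifs <;> norm_num
  · intro x y z; simp only [T3_swap12 v x y z]
  · intro x y z; simp only [T3_swap23 v x y z]
  · intro x y; simp [T3]
  · intro x y hxy
    rw [← card_filter]
    by_cases hA : 3 * x + y = 0
    · refine ⟨1, by norm_num, ?_⟩
      have : univ.filter (fun z => T3 v x y z) = {-(x + 2 * y)} := by
        ext z
        simp only [mem_filter, mem_univ, true_and, mem_singleton]
        unfold T3
        constructor
        · rintro ⟨⟨_, hyz, hxz⟩, h | h | h⟩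
          · exact absurd (by linear_combination hA - h) hxz
          · linear_combination h
          · exact absurd (sub_eq_zero.mp (can _ (by linear_combination hA - h))) hxz
        · intro h
          refine ⟨⟨hxy, ?_, ?_⟩, Or.inr (Or.inl (by rw [h]; ring))⟩
          · intro h2
            rw [h] at h2
            apply hxy
            have h4 : x + y = 0 := can _ (can _ (by linear_combination hA + h2))
            have h5 : x = 0 := can _ (by linear_combination hA - h4)
            rw [h5] at h4
            rw [h5]; linear_combination -h4
          · intro h2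
            rw [h] at h2
            apply hxy
            have h4 : x + y = 0 := can _ (by linear_combination h2)
            have h5 : x = 0 := can _ (by linear_combination hA - h4)
            rw [h5] at h4
            rw [h5]; linear_combination -h4
      rw [this]; simp
    by_cases hB : x + 3 * y = 0
    · refine ⟨1, by norm_num, ?_⟩
      have : univ.filter (fun z => T3 v x y z) = {-(2 * x + y)} := by
        ext z
        simp only [mem_filter, mem_univ, true_and, mem_singleton]
        unfold T3
        constructor
        · rintro ⟨⟨_, hyz, hxz⟩, h | h | h⟩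
          · linear_combination h
          · exact absurd (by linear_combination hB - h) hyz
          · exact absurd (sub_eq_zero.mp (can _ (by linear_combination hB - h))) hyz
        · intro h
          refine ⟨⟨hxy, ?_, ?_⟩, Or.inl (by rw [h]; ring)⟩
          · intro h2
            rw [h] at h2
            apply hxy
            have h4 : x + y = 0 := can _ (by linear_combination h2)
            have h5 : y = 0 := can _ (by linear_combination hB - h4)
            rw [h5] at h4
            rw [h5]; linear_combination h4
          · intro h2
            rw [h] at h2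
            exact hA (by linear_combination h2)
      rw [this]; simp
    by_cases hC : x + y = 0
    · refine ⟨1, by norm_num, ?_⟩
      have : univ.filter (fun z => T3 v x y z) = {0} := by
        ext z
        simp only [mem_filter, mem_univ, true_and, mem_singleton]
        unfold T3
        constructor
        · rintro ⟨⟨_, hyz, hxz⟩, h | h | h⟩
          · exact absurd (by linear_combination 2 * hC - h) hyz
          · exact absurd (by linear_combination 2 * hC - h) hxz
          · exact can _ (by linear_combination h - hC)
        · intro h
          refine ⟨⟨hxy, ?_, ?_⟩, Or.inr (Or.inr (by rw [h, hC]; ring))⟩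
          · intro h2
            rw [h] at h2
            apply hxy
            rw [h2] at hC ⊢
            linear_combination hC
          · intro h2
            rw [h] at h2
            apply hxy
            rw [h2] at hC ⊢
            linear_combination -hC
      rw [this]; simp
    · refine ⟨0, by norm_num, ?_⟩
      have : univ.filter (fun z => T3 v x y z) = {-(2 * x + y), -(x + 2 * y), -(u * (x + y))} := by
        ext z
        simp only [mem_filter, mem_univ, true_and, mem_singleton, mem_insert]
        unfold T3
        constructor
        · rintro ⟨⟨_, hyz, hxz⟩, h | h | h⟩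
          · left; linear_combination h
          · right; left; linear_combination h
          · right; right
            linear_combination u * h - z * hu
        · rintro (h | h | h)
          · refine ⟨⟨hxy, ?_, ?_⟩, Or.inl (by rw [h]; ring)⟩
            · intro h2; rw [h] at h2
              exact hC (can _ (by linear_combination h2))
            · intro h2; rw [h] at h2
              exact hA (by linear_combination h2)
          · refine ⟨⟨hxy, ?_, ?_⟩, Or.inr (Or.inl (by rw [h]; ring))⟩
            · intro h2; rw [h] at h2
              exact hB (by linear_combination h2)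
            · intro h2; rw [h] at h2
              exact hC (can _ (by linear_combination h2))
          · refine ⟨⟨hxy, ?_, ?_⟩, Or.inr (Or.inr (by rw [h]; linear_combination -(x + y) * hu))⟩
            · intro h2; rw [h] at h2
              exact hB (by linear_combination 2 * h2 - (x + y) * hu)
            · intro h2; rw [h] at h2
              exact hA (by linear_combination 2 * h2 - (x + y) * hu)
      rw [this, card_insert_of_notMem, card_insert_of_notMem, card_singleton]
      · rw [mem_singleton]
        intro h
        exact hB (by linear_combination -2 * h + (x + y) * hu)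
      · rw [mem_insert, mem_singleton]
        rintro (h | h)
        · exact hxy (by linear_combination -h)
        · exact hA (by linear_combination -2 * h + (x + y) * hu)

end three

end Pool.Agent.Lib.MP_588841_co
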